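import Pool.Agent.MLB.Defs

set_option autoImplicit false

namespace Pool.Agent.MLB

open Finset

/-- a closed cell of the body -/
def cell (m i : ℕ) (p : ℝ × ℝ) : Set (ℝ × ℝ) :=
  Set.Icc p.1 p.2 ×ˢ Set.Icc ((m * i : ℝ)) (m * i + 1)

theorem body_eq (h m : ℕ) (A : ℕ → Finset (ℝ × ℝ)) :
    body h m A = ⋃ i ∈ range h, ⋃ p ∈ A i, cell m i p := by
  ext z
  simp only [body, cell, Set.mem_setOf_eq, Set.mem_iUnion, Set.mem_prod, Set.mem_Icc, mem_range,
    exists_prop]
  constructor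
  · rintro ⟨i, hi, p, hp, h1, h2, h3, h4⟩
    exact ⟨i, hi, p, hp, ⟨h1, h2⟩, h3, h4⟩
  · rintro ⟨i, hi, p, hp, ⟨h1, h2⟩, h3, h4⟩
    exact ⟨i, hi, p, hp, h1, h2, h3, h4⟩

theorem body_isCompact (h m : ℕ) (A : ℕ → Finset (ℝ × ℝ)) : IsCompact (body h m A) := by
  rw [body_eq]
  refine (range h).finite_toSet.isCompact_biUnion ?_
  intro i _
  refine (A i).finite_toSet.isCompact_biUnion ?_
  intro p _
  exact isCompact_Icc.prod isCompact_Icc

theorem body_closure_interior (h m : ℕ) (A : ℕ → Finset (ℝ × ℝ)) (hA : Layers h A) :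
    closure (interior (body h m A)) = body h m A := by
  apply Set.Subset.antisymm
  · have hc : IsClosed (body h m A) := (body_isCompact h m A).isClosed
    exact (closure_mono interior_subset).trans hc.closure_eq.subset
  · intro z hz
    rw [body_eq] at hz
    simp only [Set.mem_iUnion, mem_range] at hz
    obtain ⟨i, hi, p, hp, hz⟩ := hz
    have h1 : Set.Ioo p.1 p.2 ×ˢ Set.Ioo ((m * i : ℝ)) (m * i + 1) ⊆ interior (body h m A) := by
      apply interior_maximal _ (isOpen_Ioo.prod isOpen_Ioo)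
      rintro w ⟨⟨a, b⟩, c, d⟩
      exact ⟨i, hi, p, hp, a.le, b.le, c.le, d.le⟩
    apply closure_mono h1
    rw [closure_prod_eq, closure_Ioo (hA.lt i hi p hp).ne, closure_Ioo (by simp)]
    exact hz

end Pool.Agent.MLB
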