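import Mathlib

set_option autoImplicit false

namespace Pool.Agent.MLB

open Finset

/-- The half-open version of a finite union of intervals: `p` stands for the interval with the end
points `p.1 < p.2`. -/
def hop (I : Finset (ℝ × ℝ)) : Set ℝ := {x | ∃ p ∈ I, p.1 ≤ x ∧ x < p.2}

/-- `A 0, ..., A (h-1)` are nonempty finite sets of nondegenerate non-overlapping intervals. -/
structure Layers (h : ℕ) (A : ℕ → Finset (ℝ × ℝ)) : Prop where
  pos : 0 < h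
  ne : ∀ i < h, (A i).Nonempty
  lt : ∀ i < h, ∀ p ∈ A i, p.1 < p.2
  sep : ∀ i < h, ∀ p ∈ A i, ∀ q ∈ A i, p ≠ q → p.2 ≤ q.1 ∨ q.2 ≤ p.1

/-- The planar body: the union of the sets `A_i × [m i, m i + 1]`, `i < h`, where `A_i` is the union
of the closed intervals of `A i`. -/
def body (h m : ℕ) (A : ℕ → Finset (ℝ × ℝ)) : Set (ℝ × ℝ) :=
  {z | ∃ i < h, ∃ p ∈ A i, p.1 ≤ z.1 ∧ z.1 ≤ p.2 ∧ (m * i : ℝ) ≤ z.2 ∧ z.2 ≤ m * i + 1}

/-- The translates `C + t`, `t ∈ T`, cover the plane and their interiors are pairwise disjoint. -/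
def Tiling (C T : Set (ℝ × ℝ)) : Prop :=
  (∀ z, ∃ t ∈ T, z - t ∈ C) ∧
    ∀ t ∈ T, ∀ t' ∈ T, t ≠ t' →
      Disjoint (interior ((fun z => z + t) '' C)) (interior ((fun z => z + t') '' C))

/-- `T` has two linearly independent periods. -/
def Periodic2 (T : Set (ℝ × ℝ)) : Prop :=
  ∃ u v : ℝ × ℝ, LinearIndependent ℝ ![u, v] ∧ (∀ z, z + u ∈ T ↔ z ∈ T) ∧ ∀ z, z + v ∈ T ↔ z ∈ T

/-- Every row `n` is the disjoint union of the sets `s + hop (A i)`, `i < h`, `s ∈ T (n - i)`. -/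
def Cov (h : ℕ) (A : ℕ → Finset (ℝ × ℝ)) (T : ℤ → Set ℝ) : Prop :=
  ∀ (n : ℤ) (u : ℝ), ∃! q : ℕ × ℝ, q.1 < h ∧ q.2 ∈ T (n - q.1) ∧ u - q.2 ∈ hop (A q.1)

/-- integer indicator function -/
noncomputable def ii (X : Set ℝ) (x : ℝ) : ℤ := by
  classical exact if x ∈ X then 1 else 0

/-- complex indicator function -/
noncomputable def ind (X : Set ℝ) (x : ℝ) : ℂ := by
  classical exact if x ∈ X then 1 else 0

/-- For every slope `γ` and every root of unity `ζ` the function `∑ ζ^i 1_{A_i}(x - i γ)` does not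
vanish identically. -/
def Star (h : ℕ) (A : ℕ → Finset (ℝ × ℝ)) : Prop :=
  ∀ (γ : ℝ) (ζ : ℂ), (∃ k : ℕ, 0 < k ∧ ζ ^ k = 1) →
    ∃ x : ℝ, ∑ i ∈ range h, ζ ^ i * ind (hop (A i)) (x - i * γ) ≠ 0

/-- All layers are translates of the layer `0`. -/
def AllTr (h : ℕ) (A : ℕ → Finset (ℝ × ℝ)) : Prop :=
  ∃ γ : ℕ → ℝ, ∀ i < h, ∀ x, x ∈ hop (A i) ↔ x - γ i ∈ hop (A 0)

/-- The element `H` of the group ring of `ℝ` annihilates `s` by convolution. -/
def Ann (H : AddMonoidAlgebra ℂ ℝ) (s : ℝ → ℂ) : Prop :=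
  ∀ x, (H.coeff.sum fun e c => c * s (x - e)) = 0

/-- The group `ℝ × ℤ` -/
abbrev V : Type := ℝ × ℤ

/-- The action of the group ring on functions. -/
noncomputable def act (f : AddMonoidAlgebra ℂ V) (t : V → ℂ) : V → ℂ :=
  fun z => f.coeff.sum fun v c => c * t (z - v)

/-- The dilation `X^v ↦ X^(n v)`. -/
noncomputable def dil (n : ℕ) (f : AddMonoidAlgebra ℂ V) : AddMonoidAlgebra ℂ V :=
  AddMonoidAlgebra.mapDomain (fun v => n • v) f

/-- The embedding of the group ring of `ℝ` (horizontal vectors). -/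
noncomputable def emb : AddMonoidAlgebra ℂ ℝ →+* AddMonoidAlgebra ℂ V :=
  AddMonoidAlgebra.mapDomainRingHom ℂ (AddMonoidHom.inl ℝ ℤ)

/-- The element `∑ (X^l - X^r)` of a finite set of intervals `[l, r)`. -/
noncomputable def lay (I : Finset (ℝ × ℝ)) : AddMonoidAlgebra ℂ ℝ :=
  ∑ p ∈ I, (AddMonoidAlgebra.single p.1 1 - AddMonoidAlgebra.single p.2 1)

/-- The sum of the coefficients of the exponents `≤ x`. -/
noncomputable def cum (x : ℝ) (f : AddMonoidAlgebra ℂ ℝ) : ℂ :=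
  f.coeff.sum fun e c => if e ≤ x then c else 0

/-- The element `∑_i a_i X^(0,i)` of the group ring of `ℝ × ℤ`. -/
noncomputable def GG (h : ℕ) (a : ℕ → AddMonoidAlgebra ℂ ℝ) : AddMonoidAlgebra ℂ V :=
  ∑ i ∈ range h, emb (a i) * AddMonoidAlgebra.single ((0 : ℝ), (i : ℤ)) 1

/-- Differences of points of `X` and `Y` at bounded distance are in a finite set. -/
def FinD (X Y : Set ℝ) : Prop := ∀ L : ℝ, {d : ℝ | ∃ x ∈ X, ∃ y ∈ Y, d = x - y ∧ |d| ≤ L}.Finite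

/-- `X` meets every closed interval of length `W`. -/
def Meets (W : ℝ) (X : Set ℝ) : Prop := ∀ c : ℝ, ∃ x ∈ X, c ≤ x ∧ x ≤ c + W

/-- `T` has the horizontal period `P` and the period `(θ, K)`. -/
def Per (T : ℤ → Set ℝ) (P θ : ℝ) (K : ℕ) : Prop :=
  0 < P ∧ 0 < K ∧ (∀ n x, x + P ∈ T n ↔ x ∈ T n) ∧ ∀ n x, x + θ ∈ T (n + K) ↔ x ∈ T n

end Pool.Agent.MLB
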