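import Pool.Agent.MLB.Targets

set_option autoImplicit false

namespace Pool.Agent.MLB

lemma det_eval (H : AddMonoidAlgebra ℂ ℝ) (s : ℝ → ℂ) (hann : Ann H s) (x e0 : ℝ)
    (he0 : e0 ∈ H.coeff.support)
    (h : ∀ e ∈ H.coeff.support, e ≠ e0 → s (x + e0 - e) = 0) : s x = 0 := by
  have h1 := hann (x + e0)
  rw [Finsupp.sum, Finset.sum_eq_single_of_mem e0 he0] at h1
  · have h2 : x + e0 - e0 = x := by ring
    rw [h2] at h1
    rcases mul_eq_zero.mp h1 with h3 | h3
    · exact absurd h3 (Finsupp.mem_support_iff.mp he0)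
    · exact h3
  · intro e he hne
    rw [h e he hne, mul_zero]

theorem p_DET : T_DET := by
  intro H hH
  have hc : H.coeff ≠ 0 := fun h => hH (AddMonoidAlgebra.coeff_eq_zero.mp h)
  have hne : H.coeff.support.Nonempty := Finsupp.support_nonempty_iff.mpr hc
  obtain ⟨e1, he1, hmin⟩ : ∃ e1 ∈ H.coeff.support, ∀ e ∈ H.coeff.support, e1 ≤ e :=
    ⟨H.coeff.support.min' hne, Finset.min'_mem _ hne, fun e he => Finset.min'_le _ e he⟩
  obtain ⟨e2, he2, hmax⟩ : ∃ e2 ∈ H.coeff.support, ∀ e ∈ H.coeff.support, e ≤ e2 :=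
    ⟨H.coeff.support.max' hne, Finset.max'_mem _ hne, fun e he => Finset.le_max' _ e he⟩
  have h12 : e1 ≤ e2 := hmin e2 he2
  refine ⟨e2 - e1 + 1, by linarith, ?_⟩
  intro s hfin hann c hzero x0
  by_contra hx0
  rcases lt_or_ge x0 c with hlt | hge
  · have hF := hfin x0 (c + (e2 - e1 + 1))
    have hmem : x0 ∈ {x | s x ≠ 0 ∧ x0 ≤ x ∧ x ≤ c + (e2 - e1 + 1)} :=
      ⟨hx0, le_refl _, by linarith⟩
    obtain ⟨x, hxm, hxmax⟩ := hF.toFinset.exists_maximal ⟨x0, hF.mem_toFinset.mpr hmem⟩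
    rw [hF.mem_toFinset] at hxm
    obtain ⟨hx1, hx2, hx3⟩ := hxm
    have hx4 : x < c := by
      by_contra hcon
      exact hx1 (hzero x (not_lt.mp hcon) hx3)
    have hbig : ∀ y, x < y → y ≤ c + (e2 - e1 + 1) → s y = 0 := by
      intro y hy1 hy2
      by_contra hy3
      have hy4 : y ∈ hF.toFinset := by
        rw [hF.mem_toFinset]
        exact ⟨hy3, by linarith, hy2⟩
      have hy5 := hxmax hy4 hy1.le
      exact absurd hy1 (not_lt.mpr hy5)
    apply hx1
    apply det_eval H s hann x e2 he2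
    intro e he hee
    have h3 : e < e2 := lt_of_le_of_ne (hmax e he) hee
    have h4 := hmin e he
    exact hbig _ (by linarith) (by linarith)
  · have hF := hfin c x0
    have hmem : x0 ∈ {x | s x ≠ 0 ∧ c ≤ x ∧ x ≤ x0} := ⟨hx0, hge, le_refl _⟩
    obtain ⟨x, hxm, hxmin⟩ := hF.toFinset.exists_minimal ⟨x0, hF.mem_toFinset.mpr hmem⟩
    rw [hF.mem_toFinset] at hxm
    obtain ⟨hx1, hx2, hx3⟩ := hxm
    have hx4 : c + (e2 - e1 + 1) < x := by
      by_contra hcon
      exact hx1 (hzero x hx2 (not_lt.mp hcon))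
    have hsmall : ∀ y, y < x → c ≤ y → s y = 0 := by
      intro y hy1 hy2
      by_contra hy3
      have hy4 : y ∈ hF.toFinset := by
        rw [hF.mem_toFinset]
        exact ⟨hy3, hy2, by linarith⟩
      have hy5 := hxmin hy4 hy1.le
      exact absurd hy1 (not_lt.mpr hy5)
    apply hx1
    apply det_eval H s hann x e1 he1
    intro e he hee
    have h3 : e1 < e := lt_of_le_of_ne (hmin e he) (Ne.symm hee)
    have h4 := hmax e he
    exact hsmall _ (by linarith) (by linarith)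

end Pool.Agent.MLB
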