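import Pool.Agent.MLB.Targets

/-!
MLB: target DIL (dilation)
-/

set_option autoImplicit false

namespace Pool.Agent.MLB

open Finset

/-- The translations as a representation of `V`. -/
noncomputable def dil_rep (p : ℕ) : Multiplicative V →* Module.End (ZMod p) (V → ZMod p) where
  toFun v := LinearMap.funLeft (ZMod p) (ZMod p) (fun z => z - Multiplicative.toAdd v)
  map_one' := by
    refine LinearMap.ext fun t => funext fun z => ?_
    simp [LinearMap.funLeft_apply]
  map_mul' v w := by
    refine LinearMap.ext fun t => funext fun z => ?_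
    simp only [LinearMap.funLeft_apply, toAdd_mul, Module.End.mul_apply]
    congr 1
    abel

theorem dil_rep_apply (p : ℕ) (v : V) (t : V → ZMod p) (z : V) :
    dil_rep p (Multiplicative.ofAdd v) t z = t (z - v) := rfl

/-- The action of the group ring. -/
noncomputable def dil_phi (p : ℕ) :
    AddMonoidAlgebra (ZMod p) V →ₐ[ZMod p] Module.End (ZMod p) (V → ZMod p) :=
  AddMonoidAlgebra.lift (ZMod p) (Module.End (ZMod p) (V → ZMod p)) V (dil_rep p)

theorem dil_phi_single (p : ℕ) (v : V) (t : V → ZMod p) (z : V) :
    dil_phi p (AddMonoidAlgebra.single v 1) t z = t (z - v) := by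
  unfold dil_phi
  rw [AddMonoidAlgebra.lift_single, one_smul, dil_rep_apply]

theorem dil_phi_sum (p : ℕ) {β : Type} (J : Finset β) (a b : β → V) (t : V → ZMod p) (z : V) :
    dil_phi p (∑ j ∈ J, (AddMonoidAlgebra.single (a j) 1 - AddMonoidAlgebra.single (b j) 1)) t z =
      ∑ j ∈ J, t (z - a j) - ∑ j ∈ J, t (z - b j) := by
  rw [map_sum, LinearMap.sum_apply, Finset.sum_apply, ← Finset.sum_sub_distrib]
  refine Finset.sum_congr rfl fun j _ => ?_
  rw [map_sub, LinearMap.sub_apply, Pi.sub_apply, dil_phi_single, dil_phi_single]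

theorem dil_one (p : ℕ) [Fact p.Prime] {β : Type} (J : Finset β) (a b : β → V) (t : V → ZMod p)
    (h : ∀ z, ∑ j ∈ J, t (z - a j) = ∑ j ∈ J, t (z - b j)) (z : V) :
    ∑ j ∈ J, t (z - p • a j) = ∑ j ∈ J, t (z - p • b j) := by
  have : CharP (AddMonoidAlgebra (ZMod p) V) p :=
    charP_of_injective_algebraMap (algebraMap (ZMod p) (AddMonoidAlgebra (ZMod p) V)).injective p
  set G : AddMonoidAlgebra (ZMod p) V :=
    ∑ j ∈ J, (AddMonoidAlgebra.single (a j) 1 - AddMonoidAlgebra.single (b j) 1) with hG
  have h1 : dil_phi p G t = 0 := by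
    funext z
    rw [hG, dil_phi_sum, h z, sub_self]
    rfl
  have h2 : G ^ p = ∑ j ∈ J, (AddMonoidAlgebra.single (p • a j) 1 -
      AddMonoidAlgebra.single (p • b j) 1) := by
    rw [hG, sum_pow_char]
    refine Finset.sum_congr rfl fun j _ => ?_
    rw [sub_pow_char, AddMonoidAlgebra.single_pow, AddMonoidAlgebra.single_pow, one_pow]
  have h3 : dil_phi p (G ^ p) t = 0 := by
    have h5 : G ^ p = G ^ (p - 1) * G := by
      rw [← pow_succ, Nat.sub_add_cancel (Fact.out : p.Prime).one_le]
    rw [h5, map_mul, Module.End.mul_apply, h1, map_zero]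
  have h4 := dil_phi_sum p J (fun j => p • a j) (fun j => p • b j) t z
  rw [← h2, h3] at h4
  exact (sub_eq_zero.mp h4.symm)

theorem p_DIL : T_DIL := by
  intro β J a b t ht h k
  induction k using Nat.strong_induction_on with
  | _ k ih =>
    intro hk hp z
    rcases Nat.lt_or_ge 1 k with h1 | h1
    · set p := k.minFac with hpdef
      have hpp : p.Prime := Nat.minFac_prime (by omega)
      have : Fact p.Prime := ⟨hpp⟩
      obtain ⟨k', hk'⟩ := Nat.minFac_dvd k
      rw [← hpdef] at hk'
      have hk0 : 0 < k' := by
        rcases Nat.eq_zero_or_pos k' with h0 | h0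
        · rw [h0, mul_zero] at hk'; omega
        · exact h0
      have hlt : k' < k := by
        rw [hk']
        have := hpp.two_le
        nlinarith
      have ih' := ih k' hlt hk0 (fun r hr hrk => hp r hr (hk' ▸ Dvd.dvd.mul_left hrk p))
      have h2 := dil_one p J (fun j => k' • a j) (fun j => k' • b j) (fun z => (t z : ZMod p))
        (fun z => by
          have h3 := congrArg (fun x : ℤ => (x : ZMod p)) (ih' z)
          simpa using h3) z
      have e : ∀ v : V, p • (k' • v) = k • v := by
        intro v
        rw [smul_smul, ← hk']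
      simp only [e] at h2
      have h4 : ((∑ j ∈ J, t (z - k • a j) - ∑ j ∈ J, t (z - k • b j) : ℤ) : ZMod p) = 0 := by
        push_cast
        rw [h2, sub_self]
      have h5 := (ZMod.intCast_zmod_eq_zero_iff_dvd _ p).mp h4
      have bd : ∀ c : β → V, 0 ≤ ∑ j ∈ J, t (c j) ∧ ∑ j ∈ J, t (c j) ≤ J.card := by
        intro c
        constructor
        · refine Finset.sum_nonneg fun j _ => ?_
          rcases ht (c j) with h0 | h0
          · rw [h0]
          · rw [h0]; norm_num
        · have : ∑ j ∈ J, t (c j) ≤ ∑ _j ∈ J, (1 : ℤ) := by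
            refine Finset.sum_le_sum fun j _ => ?_
            rcases ht (c j) with h0 | h0
            · rw [h0]; norm_num
            · rw [h0]
          simpa using this
      have b1 := bd (fun j => z - k • a j)
      have b2 := bd (fun j => z - k • b j)
      have hcard : (J.card : ℤ) < p := by
        exact_mod_cast hp p hpp (Nat.minFac_dvd k)
      have h6 := Int.eq_zero_of_abs_lt_dvd h5 (by rw [abs_lt]; constructor <;> linarith)
      linarith
    · have : k = 1 := by omega
      subst this
      simpa using h z

end Pool.Agent.MLB
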