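import Pool.Agent.MLB.Targets

set_option autoImplicit false

/-!
# MLB: elimination
-/

namespace Pool.Agent.MLB

open Finset

namespace Elim_

theorem act_single (v : V) (c : ℂ) (t : V → ℂ) (z : V) :
    act (AddMonoidAlgebra.single v c) t z = c * t (z - v) := by
  simp [act, Finsupp.sum_single_index]

theorem act_zero (t : V → ℂ) : act 0 t = 0 := by
  funext z
  simp [act]

theorem act_add (f g : AddMonoidAlgebra ℂ V) (t : V → ℂ) :
    act (f + g) t = act f t + act g t := by
  funext z
  simp only [act, AddMonoidAlgebra.coeff_add, Pi.add_apply]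
  rw [Finsupp.sum_add_index']
  · intro v; simp
  · intro v c e; ring

theorem act_fun_zero (f : AddMonoidAlgebra ℂ V) : act f 0 = 0 := by
  funext z
  simp [act]

theorem act_fun_add (f : AddMonoidAlgebra ℂ V) (t u : V → ℂ) :
    act f (t + u) = act f t + act f u := by
  funext z
  simp only [act, Pi.add_apply, mul_add]
  rw [Finsupp.sum_add]

theorem act_mul (f g : AddMonoidAlgebra ℂ V) (t : V → ℂ) :
    act (f * g) t = act f (act g t) := by
  induction f using AddMonoidAlgebra.induction_linear with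
  | zero => simp [act_zero]
  | add f₁ f₂ h₁ h₂ => rw [add_mul, act_add, act_add, h₁, h₂]
  | single v c =>
    induction g using AddMonoidAlgebra.induction_linear with
    | zero => simp [act_zero, act_fun_zero]
    | add g₁ g₂ h₁ h₂ => rw [mul_add, act_add, act_add, act_fun_add, h₁, h₂]
    | single w e =>
      funext z
      rw [AddMonoidAlgebra.single_mul_single, act_single, act_single, act_single, sub_sub]
      ring

theorem dil_one (f : AddMonoidAlgebra ℂ V) : dil 1 f = f := by
  unfold dil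
  induction f using AddMonoidAlgebra.induction_linear with
  | zero => simp
  | add f₁ f₂ h₁ h₂ => rw [AddMonoidAlgebra.mapDomain_add, h₁, h₂]
  | single v c => simp

theorem GG_ne_zero (h : ℕ) (a : ℕ → AddMonoidAlgebra ℂ ℝ)
    (hs : ∑ i ∈ range h, a i ≠ 0) : GG h a ≠ 0 := by
  intro hG
  apply hs
  have h1 := congrArg (AddMonoidAlgebra.mapDomainRingHom ℂ (AddMonoidHom.fst ℝ ℤ)) hG
  rw [map_zero, GG, map_sum] at h1
  rw [← h1]
  refine Finset.sum_congr rfl fun i _ => ?_
  rw [map_mul]
  have h2 : AddMonoidAlgebra.mapDomainRingHom ℂ (AddMonoidHom.fst ℝ ℤ)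
      (AddMonoidAlgebra.single ((0 : ℝ), (i : ℤ)) (1 : ℂ)) = 1 := by
    rw [AddMonoidAlgebra.one_def]
    simp
  rw [h2, mul_one]
  generalize a i = b
  induction b using AddMonoidAlgebra.induction_linear with
  | zero => simp
  | add f₁ f₂ h₁ h₂ => rw [map_add, map_add, ← h₁, ← h₂]
  | single v c => simp [emb]

end Elim_

open Elim_ in
theorem p_ELIM : T_SPEC → T_NORM → T_ELIM := by
  intro hS hN h a ha r hr
  have hG : GG h a ≠ 0 := by
    apply GG_ne_zero
    have h1 := ha 0 1 ⟨1, one_pos, by simp⟩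
    simpa [← AddMonoidAlgebra.one_def] using h1
  obtain ⟨D, hD0, hD⟩ := hS (GG h a) hG r hr
  have hN' : ∀ d : V, ∃ H : AddMonoidAlgebra ℂ ℝ, H ≠ 0 ∧ (d ≠ 0 →
      ∃ α β : AddMonoidAlgebra ℂ V,
        emb H = α * GG h a + β * (1 - AddMonoidAlgebra.single d 1)) := by
    intro d
    by_cases hd : d = 0
    · exact ⟨1, one_ne_zero, fun h => absurd hd h⟩
    · obtain ⟨H, hH, h1⟩ := hN h a ha d hd
      exact ⟨H, hH, fun _ => h1⟩
  choose H hH hH' using hN'
  have key : ∀ s : Finset V, (∀ d ∈ s, d ≠ 0) → ∃ α β : AddMonoidAlgebra ℂ V,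
      emb (∏ d ∈ s, H d) = α * GG h a + β * ∏ d ∈ s, (1 - AddMonoidAlgebra.single d 1) := by
    intro s
    induction s using Finset.induction_on with
    | empty =>
      intro _
      exact ⟨0, 1, by simp⟩
    | insert d s hds ih =>
      intro hs
      obtain ⟨α, β, h1⟩ := ih fun e he => hs e (Finset.mem_insert_of_mem he)
      obtain ⟨α', β', h2⟩ := hH' d (hs d (Finset.mem_insert_self _ _))
      refine ⟨α' * (α * GG h a + β * ∏ d ∈ s, (1 - AddMonoidAlgebra.single d 1)) +
        β' * (1 - AddMonoidAlgebra.single d 1) * α, β' * β, ?_⟩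
      rw [Finset.prod_insert hds, Finset.prod_insert hds, map_mul, h1, h2]
      ring
  obtain ⟨α, β, h1⟩ := key D fun d hd h0 => hD0 (h0 ▸ hd)
  refine ⟨∏ d ∈ D, H d, Finset.prod_ne_zero_iff.mpr fun d _ => hH d, ?_⟩
  intro t ht
  have h2 := ht 0
  rw [mul_zero, add_zero, dil_one] at h2
  rw [h1, act_add, act_mul, act_mul, h2, hD t ht, act_fun_zero, act_fun_zero, add_zero]

end Pool.Agent.MLB
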