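import Pool.Agent.MLB.Targets

set_option autoImplicit false

/-!
# MLB, target FLC: finite local complexity of the rows
-/

namespace Pool.Agent.MLB

open Finset

namespace FLC_

/-- The interval `p` of the layer `i` of the tile at `s` is a piece of the row `n`. -/
def Pc (h : ℕ) (A : ℕ → Finset (ℝ × ℝ)) (T : ℤ → Set ℝ) (n : ℤ) (i : ℕ) (s : ℝ)
    (p : ℝ × ℝ) : Prop := i < h ∧ s ∈ T (n - i) ∧ p ∈ A i

variable {h : ℕ} {A : ℕ → Finset (ℝ × ℝ)} {T : ℤ → Set ℝ}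

theorem uniq (hA : Layers h A) (hT : Cov h A T) {n : ℤ} {u : ℝ} {i i' : ℕ} {s s' : ℝ}
    {p p' : ℝ × ℝ} (h1 : Pc h A T n i s p) (h2 : Pc h A T n i' s' p') (hu1 : s + p.1 ≤ u)
    (hu2 : u < s + p.2) (hu3 : s' + p'.1 ≤ u) (hu4 : u < s' + p'.2) :
    i = i' ∧ s = s' ∧ p = p' := by
  have h3 := (hT n u).unique (y₁ := (i, s)) (y₂ := (i', s'))
    ⟨h1.1, h1.2.1, p, h1.2.2, by simp only; linarith, by simp only; linarith⟩
    ⟨h2.1, h2.2.1, p', h2.2.2, by simp only; linarith, by simp only; linarith⟩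
  rw [Prod.mk.injEq] at h3
  obtain ⟨rfl, rfl⟩ := h3
  refine ⟨rfl, rfl, ?_⟩
  by_contra hne
  rcases hA.sep i h1.1 p h1.2.2 p' h2.2.2 hne with h4 | h4
  · linarith
  · linarith

theorem next (hA : Layers h A) (hT : Cov h A T) {n : ℤ} {i : ℕ} {s : ℝ} {p : ℝ × ℝ}
    (h1 : Pc h A T n i s p) : ∃ i' s' p', Pc h A T n i' s' p' ∧ s' + p'.1 = s + p.2 := by
  obtain ⟨⟨i', s'⟩, ⟨h2, h3, p', hp', h4, h5⟩, -⟩ := hT n (s + p.2)
  simp only at h2 h3 hp' h4 h5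
  have hP' : Pc h A T n i' s' p' := ⟨h2, h3, hp'⟩
  refine ⟨i', s', p', hP', ?_⟩
  by_contra hne
  have hlt : s' + p'.1 < s + p.2 := lt_of_le_of_ne (by linarith) hne
  have hp := hA.lt i h1.1 p h1.2.2
  obtain ⟨-, rfl, rfl⟩ := uniq hA hT (u := max (s + p.1) (s' + p'.1)) h1 hP' (le_max_left _ _)
    (max_lt (by linarith) hlt) (le_max_right _ _)
    (max_lt (by linarith) (by linarith))
  linarith

theorem noInner (hA : Layers h A) (hT : Cov h A T) {n : ℤ} {i i' : ℕ} {s s' : ℝ}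
    {p p' : ℝ × ℝ} (h1 : Pc h A T n i s p) (h2 : Pc h A T n i' s' p')
    (hlt : s + p.1 < s' + p'.1) : s + p.2 ≤ s' + p'.1 := by
  by_contra hc
  push Not at hc
  have hp' := hA.lt i' h2.1 p' h2.2.2
  obtain ⟨-, rfl, rfl⟩ := uniq hA hT (u := s' + p'.1) h1 h2 hlt.le hc le_rfl (by linarith)
  exact lt_irrefl _ hlt

open Classical in
/-- Sums of at most `k` elements of `Λ`. -/
noncomputable def Dk (Λ : Finset ℝ) : ℕ → Finset ℝ
  | 0 => {0}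
  | k + 1 => Dk Λ k ∪ (Dk Λ k ×ˢ Λ).image fun z => z.1 + z.2

theorem zero_mem_Dk (Λ : Finset ℝ) (k : ℕ) : (0 : ℝ) ∈ Dk Λ k := by
  induction k with
  | zero => simp [Dk]
  | succ k ih => exact mem_union_left _ ih

theorem add_mem_Dk {Λ : Finset ℝ} {k : ℕ} {d l : ℝ} (hd : d ∈ Dk Λ k) (hl : l ∈ Λ) :
    d + l ∈ Dk Λ (k + 1) :=
  mem_union_right _ (mem_image.2 ⟨(d, l), mem_product.2 ⟨hd, hl⟩, rfl⟩)

theorem chain (hA : Layers h A) (hT : Cov h A T) {lam : ℝ} {Λ : Finset ℝ}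
    (hlam : ∀ i < h, ∀ p ∈ A i, lam ≤ p.2 - p.1 ∧ p.2 - p.1 ∈ Λ) (n : ℤ) (k : ℕ) :
    ∀ (i i' : ℕ) (s s' : ℝ) (p p' : ℝ × ℝ), Pc h A T n i s p → Pc h A T n i' s' p' →
      s + p.1 ≤ s' + p'.1 → (s' + p'.1) - (s + p.1) ≤ k * lam →
      (s' + p'.1) - (s + p.1) ∈ Dk Λ k := by
  induction k with
  | zero =>
    intro i i' s s' p p' _ _ hle hk
    have h3 : (s' + p'.1) - (s + p.1) = 0 := by
      simp only [Nat.cast_zero, zero_mul] at hk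
      linarith
    rw [h3]
    exact zero_mem_Dk _ _
  | succ k ih =>
    intro i i' s s' p p' h1 h2 hle hk
    rcases hle.eq_or_lt with heq | hlt
    · rw [heq, sub_self]
      exact zero_mem_Dk _ _
    · have h3 := noInner hA hT h1 h2 hlt
      obtain ⟨i₁, s₁, p₁, h4, h5⟩ := next hA hT h1
      obtain ⟨hl1, hl2⟩ := hlam i h1.1 p h1.2.2
      have h6 := ih i₁ i' s₁ s' p₁ p' h4 h2 (by linarith) (by push_cast at hk; linarith)
      have h7 := add_mem_Dk h6 hl2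
      have e : (s' + p'.1) - (s₁ + p₁.1) + (p.2 - p.1) = (s' + p'.1) - (s + p.1) := by linarith
      rwa [e] at h7

end FLC_

open FLC_ in
theorem p_FLC : T_FLC := by
  classical
  intro h A hA L
  obtain ⟨S, hS⟩ : ∃ S : Finset (ℝ × ℝ), ∀ p, p ∈ S ↔ ∃ i < h, p ∈ A i :=
    ⟨(range h).biUnion A, fun p => by simp⟩
  have hSne : S.Nonempty := by
    obtain ⟨p, hp⟩ := hA.ne 0 hA.pos
    exact ⟨p, (hS p).2 ⟨0, hA.pos, hp⟩⟩
  obtain ⟨p₀, hp₀, hmin⟩ := S.exists_min_image (fun p => p.2 - p.1) hSne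
  obtain ⟨p₁, hp₁, hmax⟩ := S.exists_max_image (fun p => |p.1|) hSne
  have hlam : 0 < p₀.2 - p₀.1 := by
    obtain ⟨i, hi, hp⟩ := (hS p₀).1 hp₀
    have := hA.lt i hi p₀ hp
    linarith
  obtain ⟨k, hk⟩ := exists_nat_ge ((L + 2 * |p₁.1|) / (p₀.2 - p₀.1))
  rw [div_le_iff₀ hlam] at hk
  obtain ⟨Λ, hΛ⟩ : ∃ Λ : Finset ℝ, ∀ p ∈ S, p.2 - p.1 ∈ Λ :=
    ⟨S.image fun p => p.2 - p.1, fun p hp => mem_image.2 ⟨p, hp, rfl⟩⟩
  have hl : ∀ i < h, ∀ p ∈ A i, p₀.2 - p₀.1 ≤ p.2 - p.1 ∧ p.2 - p.1 ∈ Λ := by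
    intro i hi p hp
    have hpS := (hS p).2 ⟨i, hi, hp⟩
    exact ⟨hmin p hpS, hΛ p hpS⟩
  -- the differences for `j ≤ j'`
  obtain ⟨E, hE⟩ : ∃ E : Finset ℝ, ∀ d ∈ Dk Λ k, ∀ p ∈ S, ∀ p' ∈ S,
      d - p.1 + p'.1 ∈ E ∧ -d - p.1 + p'.1 ∈ E := by
    refine ⟨(Dk Λ k ×ˢ (S ×ˢ S)).image (fun z => z.1 - z.2.1.1 + z.2.2.1) ∪
      (Dk Λ k ×ˢ (S ×ˢ S)).image (fun z => -z.1 - z.2.1.1 + z.2.2.1), ?_⟩
    intro d hd p hp p' hp'
    have hz : (d, p, p') ∈ Dk Λ k ×ˢ (S ×ˢ S) :=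
      mem_product.2 ⟨hd, mem_product.2 ⟨hp, hp'⟩⟩
    exact ⟨mem_union_left _ (mem_image.2 ⟨_, hz, rfl⟩), mem_union_right _
      (mem_image.2 ⟨_, hz, rfl⟩)⟩
  have key : ∀ T : ℤ → Set ℝ, Cov h A T → ∀ j j' : ℤ, j ≤ j' → j' - j < h →
      ∀ x ∈ T j, ∀ y ∈ T j', |x - y| ≤ L → x - y ∈ E := by
    intro T hT j j' hjj hj x hx y hy hxy
    obtain ⟨i, hi⟩ := Int.eq_ofNat_of_zero_le (by linarith : 0 ≤ j' - j)
    have hih : i < h := by omega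
    obtain ⟨p, hp⟩ := hA.ne i hih
    obtain ⟨p', hp'⟩ := hA.ne 0 hA.pos
    have e1 : j' - (i : ℤ) = j := by omega
    have e2 : j' - ((0 : ℕ) : ℤ) = j' := by simp
    have h1 : Pc h A T j' i x p := ⟨hih, by rw [e1]; exact hx, hp⟩
    have h2 : Pc h A T j' 0 y p' := ⟨hA.pos, by rw [e2]; exact hy, hp'⟩
    have hpS := (hS p).2 ⟨i, hih, hp⟩
    have hpS' := (hS p').2 ⟨0, hA.pos, hp'⟩
    have b1 := hmax p hpS
    have b2 := hmax p' hpS'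
    have b3 := abs_le.1 hxy
    have b4 := abs_le.1 b1
    have b5 := abs_le.1 b2
    rcases le_total (x + p.1) (y + p'.1) with hle | hle
    · have h3 := chain hA hT hl j' k i 0 x y p p' h1 h2 hle (by linarith)
      have h4 := (hE _ h3 p hpS p' hpS').2
      have e : -((y + p'.1) - (x + p.1)) - p.1 + p'.1 = x - y := by ring
      rwa [e] at h4
    · have h3 := chain hA hT hl j' k 0 i y x p' p h2 h1 hle (by linarith)
      have h4 := (hE _ h3 p hpS p' hpS').1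
      have e : ((x + p.1) - (y + p'.1)) - p.1 + p'.1 = x - y := by ring
      rwa [e] at h4
  refine ⟨E ∪ E.image (fun z => -z), ?_⟩
  intro T hT j j' hj x hx y hy hxy
  rcases le_total j j' with hle | hle
  · have h1 : j' - j < h := by
      have := (abs_lt.1 hj).1
      linarith
    exact mem_union_left _ (key T hT j j' hle h1 x hx y hy hxy)
  · have h1 : j - j' < h := (abs_lt.1 hj).2
    rw [abs_sub_comm] at hxy
    refine mem_union_right _ (mem_image.2 ⟨y - x, key T hT j' j hle h1 y hy x hx hxy, by ring⟩)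

end Pool.Agent.MLB
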