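import Pool.Agent.MLB.Targets

set_option autoImplicit false

/-! T_GLUE: gluing shifted copies of a block of rows. -/

namespace Pool.Agent.MLB

theorem p_GLUE : T_GLUE := by
  intro h A hh T hT n K θ P hK hP hw hp
  have hK' : (0 : ℤ) < (K : ℤ) := by exact_mod_cast hK
  set S : ℤ → Set ℝ := fun m =>
    {x | x - (((m - n) / (K : ℤ) : ℤ) : ℝ) * θ ∈ T (n + (m - n) % (K : ℤ))} with hS
  have hSm : ∀ (m : ℤ) (x : ℝ), x ∈ S m ↔
      x - (((m - n) / (K : ℤ) : ℤ) : ℝ) * θ ∈ T (n + (m - n) % (K : ℤ)) := fun m x => Iff.rfl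
  -- the claim
  have claim : ∀ r' : ℕ, r' + 2 ≤ K + h → ∀ (q : ℤ) (x : ℝ),
      x ∈ S (n + q * K + r') ↔ x - (q : ℝ) * θ ∈ T (n + r') := by
    intro r'
    induction r' using Nat.strong_induction_on with
    | _ r' ih =>
      intro hr q x
      by_cases hlt : r' < K
      · have h0 : (0 : ℤ) ≤ (r' : ℤ) := by positivity
        have h1 : (r' : ℤ) < (K : ℤ) := by exact_mod_cast hlt
        have e1 : n + q * (K : ℤ) + (r' : ℤ) - n = (r' : ℤ) + (K : ℤ) * q := by ring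
        rw [hSm, e1, Int.add_mul_ediv_left _ _ hK'.ne', Int.ediv_eq_zero_of_lt h0 h1,
          Int.add_mul_emod_self_left, Int.emod_eq_of_lt h0 h1, zero_add]
      · have hge : K ≤ r' := Nat.le_of_not_lt hlt
        obtain ⟨i, rfl⟩ := Nat.exists_eq_add_of_le hge
        have hi : i + 1 < h := by omega
        have hir : i < K + i := by omega
        have e1 : n + q * (K : ℤ) + ((K + i : ℕ) : ℤ) = n + (q + 1) * (K : ℤ) + (i : ℤ) := by
          push_cast; ring
        rw [e1, ih i hir (by omega) (q + 1) x, ← hw i hi]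
        have e2 : x - ((q + 1 : ℤ) : ℝ) * θ + θ = x - (q : ℝ) * θ := by push_cast; ring
        have e3 : n + (K : ℤ) + (i : ℤ) = n + ((K + i : ℕ) : ℤ) := by push_cast; ring
        rw [e2, e3]
  refine ⟨S, ?_, hP, hK, ?_, ?_⟩
  · -- Cov
    intro m u
    set w : ℤ := m - (h - 1 : ℕ) - n with hwdef
    set q : ℤ := w / (K : ℤ) with hq
    obtain ⟨r, hr⟩ : ∃ r : ℕ, (r : ℤ) = w % (K : ℤ) :=
      ⟨(w % (K : ℤ)).toNat, Int.toNat_of_nonneg (Int.emod_nonneg _ hK'.ne')⟩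
    have hrK : r < K := by
      have := Int.emod_lt_of_pos w hK'
      rw [← hr] at this
      exact_mod_cast this
    have hm : m = n + q * (K : ℤ) + (r : ℤ) + ((h - 1 : ℕ) : ℤ) := by
      have h1 := Int.emod_add_mul_ediv w (K : ℤ)
      rw [← hr, ← hq] at h1
      have h2 : (K : ℤ) * q = q * (K : ℤ) := mul_comm _ _
      omega
    have key : ∀ i : ℕ, i < h → ∀ s : ℝ, s ∈ S (m - i) ↔
        s - (q : ℝ) * θ ∈ T (n + (r : ℤ) + ((h - 1 : ℕ) : ℤ) - (i : ℤ)) := by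
      intro i hi s
      have e1 : m - (i : ℤ) = n + q * (K : ℤ) + ((r + (h - 1 - i) : ℕ) : ℤ) := by
        rw [hm]
        have : ((r + (h - 1 - i) : ℕ) : ℤ) = (r : ℤ) + ((h - 1 : ℕ) : ℤ) - (i : ℤ) := by
          omega
        rw [this]; ring
      have e2 : n + (r : ℤ) + ((h - 1 : ℕ) : ℤ) - (i : ℤ) = n + ((r + (h - 1 - i) : ℕ) : ℤ) := by
        omega
      rw [e1, e2]
      exact claim _ (by omega) q s
    obtain ⟨⟨i, s⟩, ⟨hi, hs, hu⟩, huniq⟩ :=
      hT (n + (r : ℤ) + ((h - 1 : ℕ) : ℤ)) (u - (q : ℝ) * θ)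
    simp only at hi hs hu
    refine ⟨(i, s + (q : ℝ) * θ), ⟨hi, ?_, ?_⟩, ?_⟩
    · show s + (q : ℝ) * θ ∈ S (m - i)
      rw [key i hi]
      have : s + (q : ℝ) * θ - (q : ℝ) * θ = s := by ring
      rw [this]; exact hs
    · show u - (s + (q : ℝ) * θ) ∈ hop (A i)
      have : u - (s + (q : ℝ) * θ) = u - (q : ℝ) * θ - s := by ring
      rw [this]; exact hu
    · rintro ⟨j, y⟩ ⟨hj, hy, hyu⟩
      simp only at hj hy hyu
      rw [key j hj] at hy
      have h3 : u - (q : ℝ) * θ - (y - (q : ℝ) * θ) ∈ hop (A j) := by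
        have : u - (q : ℝ) * θ - (y - (q : ℝ) * θ) = u - y := by ring
        rw [this]; exact hyu
      have h4 := huniq (j, y - (q : ℝ) * θ) ⟨hj, hy, h3⟩
      have h5 : j = i := congrArg Prod.fst h4
      have h6 : y - (q : ℝ) * θ = s := congrArg Prod.snd h4
      refine Prod.ext h5 ?_
      show y = s + (q : ℝ) * θ
      rw [← h6]; ring
  · -- horizontal period
    intro m x
    rw [hSm, hSm]
    obtain ⟨r, hr⟩ : ∃ r : ℕ, (r : ℤ) = (m - n) % (K : ℤ) :=
      ⟨((m - n) % (K : ℤ)).toNat, Int.toNat_of_nonneg (Int.emod_nonneg _ hK'.ne')⟩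
    have hrK : r < K := by
      have := Int.emod_lt_of_pos (m - n) hK'
      rw [← hr] at this
      exact_mod_cast this
    rw [← hr, ← hp r hrK (x - (((m - n) / (K : ℤ) : ℤ) : ℝ) * θ)]
    have : x + P - (((m - n) / (K : ℤ) : ℤ) : ℝ) * θ =
        x - (((m - n) / (K : ℤ) : ℤ) : ℝ) * θ + P := by ring
    rw [this]
  · -- the second period
    intro m x
    rw [hSm, hSm]
    have e1 : m + (K : ℤ) - n = (m - n) + (K : ℤ) := by ring
    have e2 : (m + (K : ℤ) - n) / (K : ℤ) = (m - n) / (K : ℤ) + 1 := by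
      rw [e1, Int.add_ediv_of_dvd_right (dvd_refl _), Int.ediv_self hK'.ne']
    have e3 : (m + (K : ℤ) - n) % (K : ℤ) = (m - n) % (K : ℤ) := by
      rw [e1, Int.add_emod_right]
    rw [e2, e3]
    have : x + θ - (((m - n) / (K : ℤ) + 1 : ℤ) : ℝ) * θ =
        x - (((m - n) / (K : ℤ) : ℤ) : ℝ) * θ := by push_cast; ring
    rw [this]

end Pool.Agent.MLB
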