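import Pool.Agent.MLB.Targets

set_option autoImplicit false

namespace Pool.Agent.MLB

open Finset

theorem han_act_zero (t : V → ℂ) : act 0 t = 0 := by
  funext z
  simp [act]

theorem han_act_add (f g : AddMonoidAlgebra ℂ V) (t : V → ℂ) :
    act (f + g) t = act f t + act g t := by
  funext z
  simp only [act, AddMonoidAlgebra.coeff_add, Pi.add_apply]
  rw [Finsupp.sum_add_index']
  · intro v
    simp
  · intro v a b
    ring

theorem han_act_single (v : V) (c : ℂ) (t : V → ℂ) (z : V) :
    act (AddMonoidAlgebra.single v c) t z = c * t (z - v) := by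
  simp only [act, AddMonoidAlgebra.coeff_single]
  rw [Finsupp.sum_single_index]
  simp

/-- the action as an additive homomorphism -/
noncomputable def hanHom (t : V → ℂ) : AddMonoidAlgebra ℂ V →+ (V → ℂ) where
  toFun f := act f t
  map_zero' := han_act_zero t
  map_add' f g := han_act_add f g t

/-- the dilation as an additive homomorphism -/
noncomputable def hanDil (n : ℕ) : AddMonoidAlgebra ℂ V →+ AddMonoidAlgebra ℂ V where
  toFun f := dil n f
  map_zero' := by simp [dil]
  map_add' f g := by simp only [dil, AddMonoidAlgebra.mapDomain_add]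

theorem han_dil_single (n : ℕ) (v : V) (c : ℂ) :
    hanDil n (AddMonoidAlgebra.single v c) = AddMonoidAlgebra.single (n • v) c := by
  show dil n _ = _
  simp only [dil, AddMonoidAlgebra.mapDomain_single]

theorem han_emb_single (e : ℝ) (d : ℂ) :
    emb (AddMonoidAlgebra.single e d) = AddMonoidAlgebra.single ((e, 0) : V) d := by
  unfold emb
  simp [AddMonoidAlgebra.mapDomainRingHom_apply, AddMonoidAlgebra.mapDomain_single]

theorem han_emb_lay (I : Finset (ℝ × ℝ)) :
    emb (lay I) = ∑ p ∈ I, (AddMonoidAlgebra.single ((p.1, 0) : V) 1 -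
      AddMonoidAlgebra.single ((p.2, 0) : V) 1) := by
  unfold lay
  rw [map_sum]
  refine sum_congr rfl fun p _ => ?_
  rw [map_sub, han_emb_single, han_emb_single]

theorem han_GG (h : ℕ) (A : ℕ → Finset (ℝ × ℝ)) :
    GG h (fun i => lay (A i)) = ∑ i ∈ range h, ∑ p ∈ A i,
      (AddMonoidAlgebra.single ((p.1, (i : ℤ)) : V) 1 -
        AddMonoidAlgebra.single ((p.2, (i : ℤ)) : V) 1) := by
  unfold GG
  refine sum_congr rfl fun i _ => ?_
  rw [han_emb_lay, sum_mul]
  refine sum_congr rfl fun p _ => ?_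
  rw [sub_mul, AddMonoidAlgebra.single_mul_single, AddMonoidAlgebra.single_mul_single]
  simp

theorem han_act_dil (h : ℕ) (A : ℕ → Finset (ℝ × ℝ)) (m : ℕ) (t : V → ℂ) (z : V) :
    act (dil m (GG h (fun i => lay (A i)))) t z = ∑ i ∈ range h, ∑ p ∈ A i,
      (t (z - m • ((p.1, (i : ℤ)) : V)) - t (z - m • ((p.2, (i : ℤ)) : V))) := by
  have h1 : dil m (GG h (fun i => lay (A i))) = hanDil m (GG h (fun i => lay (A i))) := rfl
  rw [h1, han_GG]
  have h2 : ∀ f, act f t = hanHom t f := fun _ => rfl
  rw [h2, map_sum, map_sum, Finset.sum_apply]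
  refine sum_congr rfl fun i _ => ?_
  rw [map_sum, map_sum, Finset.sum_apply]
  refine sum_congr rfl fun p _ => ?_
  rw [map_sub, map_sub, Pi.sub_apply, han_dil_single, han_dil_single]
  show act _ t z - act _ t z = _
  rw [han_act_single, han_act_single, one_mul, one_mul]

theorem han_act_emb (H : AddMonoidAlgebra ℂ ℝ) (t : V → ℂ) (x : ℝ) (n : ℤ) :
    act (emb H) t (x, n) = H.coeff.sum fun e c => c * t (x - e, n) := by
  induction H using AddMonoidAlgebra.induction_linear with
  | zero => simp [act]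
  | add f g hf hg =>
    rw [map_add, han_act_add, Pi.add_apply, hf, hg, AddMonoidAlgebra.coeff_add,
      Finsupp.sum_add_index']
    · intro e
      simp
    · intro e a b
      ring
  | single e c =>
    rw [han_emb_single, han_act_single, AddMonoidAlgebra.coeff_single,
      Finsupp.sum_single_index]
    · simp
    · simp

theorem han_ind (X : Set ℝ) (x : ℝ) : ind X x = ((ii X x : ℤ) : ℂ) := by
  unfold ind ii
  split_ifs <;> simp

theorem p_HAN : T_JUMP → T_DIL → T_ELIM → T_SG → T_HAN := by
  classical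
  intro hJ hDl hE hS h A hA hSt
  set J : Finset (Σ _ : ℕ, ℝ × ℝ) := (range h).sigma (fun i => A i) with hJd
  have hr : 0 < (J.card).factorial := Nat.factorial_pos _
  obtain ⟨H, hH0, hH⟩ := hE h (fun i => lay (A i)) (fun γ ζ hζ => hS h A hA hSt γ ζ hζ)
    (J.card).factorial hr
  refine ⟨H, hH0, ?_⟩
  intro T hT n x
  set t : V → ℤ := fun z => ii (T z.2) z.1 with ht
  have ht01 : ∀ z, t z = 0 ∨ t z = 1 := by
    intro z
    simp only [ht, ii]
    split_ifs <;> simp
  have hsum : ∀ z, ∑ j ∈ J, t (z - ((j.2.1, (j.1 : ℤ)) : V)) =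
      ∑ j ∈ J, t (z - ((j.2.2, (j.1 : ℤ)) : V)) := by
    intro z
    have := hJ h A hA T hT z.2 z.1
    rw [hJd, sum_sigma, sum_sigma]
    exact this
  have hall : ∀ k : ℕ, act (dil (1 + (J.card).factorial * k) (GG h (fun i => lay (A i))))
      (fun z => ((t z : ℤ) : ℂ)) = 0 := by
    intro k
    funext z
    have hd := hDl (Σ _ : ℕ, ℝ × ℝ) J (fun j => (j.2.1, (j.1 : ℤ))) (fun j => (j.2.2, (j.1 : ℤ)))
      t ht01 hsum (1 + (J.card).factorial * k) (by omega) ?_ z
    · rw [hJd, sum_sigma, sum_sigma] at hd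
      rw [han_act_dil]
      have hc : ((∑ i ∈ range h, ∑ p ∈ A i, (t (z - (1 + (J.card).factorial * k) •
          ((p.1, (i : ℤ)) : V)) - t (z - (1 + (J.card).factorial * k) •
          ((p.2, (i : ℤ)) : V))) : ℤ) : ℂ) = 0 := by
        rw [← Int.cast_zero]
        congr 1
        simp only [sum_sub_distrib]
        exact sub_eq_zero.2 hd
      push_cast at hc
      exact hc
    · intro p hp hpk
      by_contra hlt
      push Not at hlt
      have h1 : p ∣ (J.card).factorial := (Nat.Prime.dvd_factorial hp).2 hlt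
      have h2 : p ∣ (J.card).factorial * k := Dvd.dvd.mul_right h1 k
      have h3 : p ∣ 1 := (Nat.dvd_add_left h2).1 hpk
      exact hp.one_lt.ne' (Nat.dvd_one.1 h3)
  have h0 := congrFun (hH _ hall) (x, n)
  rw [han_act_emb] at h0
  refine Eq.trans ?_ (h0.trans rfl)
  refine Finsupp.sum_congr fun e _ => ?_
  rw [han_ind]

end Pool.Agent.MLB
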