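import Pool.Agent.MLB.Targets

set_option autoImplicit false

namespace Pool.Agent.MLB

open Finset

lemma jump_sum {ι : Type} (s : Finset ι) (f : ι → Prop) (c : ι → ℤ)
    (h1 : ∀ x ∈ s, f x → c x = 1) (h0 : ∀ x ∈ s, ¬ f x → c x = 0)
    (hu : ∀ x ∈ s, ∀ y ∈ s, f x → f y → x = y) :
    ((∃ x ∈ s, f x) → ∑ x ∈ s, c x = 1) ∧ ((¬ ∃ x ∈ s, f x) → ∑ x ∈ s, c x = 0) := by
  constructor
  · rintro ⟨x, hx, hfx⟩
    rw [Finset.sum_eq_single_of_mem x hx]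
    · exact h1 x hx hfx
    · intro y hy hne
      exact h0 y hy (fun hfy => hne (hu y hy x hx hfy hfx))
  · intro hno
    refine Finset.sum_eq_zero ?_
    intro x hx
    exact h0 x hx (fun hfx => hno ⟨x, hx, hfx⟩)

lemma jump_lam {h : ℕ} {A : ℕ → Finset (ℝ × ℝ)} (hL : Layers h A) :
    ∃ lam : ℝ, 0 < lam ∧ ∀ i < h, ∀ p ∈ A i, lam ≤ p.2 - p.1 := by
  classical
  have hne : ((range h).biUnion A).Nonempty := by
    obtain ⟨p, hp⟩ := hL.ne 0 hL.pos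
    exact ⟨p, Finset.mem_biUnion.2 ⟨0, Finset.mem_range.2 hL.pos, hp⟩⟩
  obtain ⟨p0, hp0, hmin⟩ := Finset.exists_min_image _ (fun p : ℝ × ℝ => p.2 - p.1) hne
  refine ⟨p0.2 - p0.1, ?_, ?_⟩
  · obtain ⟨i, hi, hp⟩ := Finset.mem_biUnion.1 hp0
    have := hL.lt i (Finset.mem_range.1 hi) p0 hp
    linarith
  · intro i hi p hp
    exact hmin p (Finset.mem_biUnion.2 ⟨i, Finset.mem_range.2 hi, hp⟩)

section JumpRow

variable {h : ℕ} {A : ℕ → Finset (ℝ × ℝ)} {T : ℤ → Set ℝ} {n : ℤ}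

lemma jump_ex (hC : Cov h A T) (n : ℤ) (w : ℝ) :
    ∃ (i : ℕ) (s : ℝ) (p : ℝ × ℝ), i < h ∧ s ∈ T (n - i) ∧ p ∈ A i ∧ s + p.1 ≤ w ∧ w < s + p.2 := by
  obtain ⟨⟨i, s⟩, ⟨hi, hs, p, hp, h1, h2⟩, _⟩ := hC n w
  refine ⟨i, s, p, hi, hs, hp, ?_, ?_⟩
  · have : p.1 ≤ w - s := h1
    linarith
  · have : w - s < p.2 := h2
    linarith

lemma jump_uniq (hL : Layers h A) (hC : Cov h A T) (w : ℝ) {i i' : ℕ} {s s' : ℝ} {p p' : ℝ × ℝ}
    (hi : i < h) (hs : s ∈ T (n - i)) (hp : p ∈ A i) (h1 : s + p.1 ≤ w) (h2 : w < s + p.2)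
    (hi' : i' < h) (hs' : s' ∈ T (n - i')) (hp' : p' ∈ A i') (h1' : s' + p'.1 ≤ w)
    (h2' : w < s' + p'.2) : i = i' ∧ s = s' ∧ p = p' := by
  obtain ⟨q, _, hq⟩ := hC n w
  have e1 : ((i, s) : ℕ × ℝ) = q :=
    hq (i, s) ⟨hi, hs, p, hp, by show p.1 ≤ w - s; linarith, by show w - s < p.2; linarith⟩
  have e2 : ((i', s') : ℕ × ℝ) = q :=
    hq (i', s') ⟨hi', hs', p', hp', by show p'.1 ≤ w - s'; linarith,
      by show w - s' < p'.2; linarith⟩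
  have e3 : ((i, s) : ℕ × ℝ) = (i', s') := e1.trans e2.symm
  have e4 : i = i' := congrArg Prod.fst e3
  have e5 : s = s' := congrArg Prod.snd e3
  subst e4
  subst e5
  refine ⟨rfl, rfl, ?_⟩
  by_contra hne
  rcases hL.sep i hi p hp p' hp' hne with hh | hh <;> linarith

/-- two pieces with the same end -/
lemma jump_end (hL : Layers h A) (hC : Cov h A T) (u : ℝ) {i i' : ℕ} {s s' : ℝ} {p p' : ℝ × ℝ}
    (hi : i < h) (hs : s ∈ T (n - i)) (hp : p ∈ A i) (h2 : s + p.2 = u)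
    (hi' : i' < h) (hs' : s' ∈ T (n - i')) (hp' : p' ∈ A i') (h1' : s' + p'.1 < u)
    (h2' : u ≤ s' + p'.2) : i = i' ∧ s = s' ∧ p = p' := by
  have l1 := hL.lt i hi p hp
  have a1 : s + p.1 ≤ max (s + p.1) (s' + p'.1) := le_max_left _ _
  have a2 : s' + p'.1 ≤ max (s + p.1) (s' + p'.1) := le_max_right _ _
  have a3 : max (s + p.1) (s' + p'.1) < u := max_lt (by linarith) h1'
  exact jump_uniq hL hC (max (s + p.1) (s' + p'.1)) hi hs hp a1 (by linarith) hi' hs' hp' a2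
    (by linarith)

/-- (b) -/
lemma jump_b (hL : Layers h A) (hC : Cov h A T) (u : ℝ) {i : ℕ} {s : ℝ} {p : ℝ × ℝ}
    (hi : i < h) (hs : s ∈ T (n - i)) (hp : p ∈ A i) (h2 : s + p.2 = u) :
    ∃ (i' : ℕ) (s' : ℝ) (p' : ℝ × ℝ), i' < h ∧ s' ∈ T (n - i') ∧ p' ∈ A i' ∧ s' + p'.1 = u := by
  obtain ⟨i', s', p', hi', hs', hp', h1', h2'⟩ := jump_ex hC n u
  refine ⟨i', s', p', hi', hs', hp', ?_⟩
  rcases lt_or_eq_of_le h1' with hlt | heq
  · obtain ⟨e1, e2, e3⟩ := jump_end hL hC u hi hs hp h2 hi' hs' hp' hlt h2'.le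
    subst e1 e2 e3
    linarith
  · exact heq

/-- (c) -/
lemma jump_c (hL : Layers h A) (hC : Cov h A T) (u : ℝ) {i : ℕ} {s : ℝ} {p : ℝ × ℝ}
    (hi : i < h) (hs : s ∈ T (n - i)) (hp : p ∈ A i) (h1 : s + p.1 = u) :
    ∃ (i' : ℕ) (s' : ℝ) (p' : ℝ × ℝ), i' < h ∧ s' ∈ T (n - i') ∧ p' ∈ A i' ∧ s' + p'.2 = u := by
  obtain ⟨lam, hlam, hmin⟩ := jump_lam hL
  have l1 := hL.lt i hi p hp
  obtain ⟨i', s', p', hi', hs', hp', h1', h2'⟩ := jump_ex hC n (u - lam / 2)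
  refine ⟨i', s', p', hi', hs', hp', ?_⟩
  rcases lt_trichotomy (s' + p'.2) u with hlt | heq | hgt
  · exfalso
    obtain ⟨i'', s'', p'', hi'', hs'', hp'', h1''⟩ := jump_b hL hC (s' + p'.2) hi' hs' hp' rfl
    have l2 := hmin i'' hi'' p'' hp''
    obtain ⟨e1, e2, e3⟩ := jump_uniq hL hC u hi hs hp (by linarith) (by linarith) hi'' hs'' hp''
      (by linarith) (by linarith)
    subst e1 e2 e3
    linarith
  · exact heq
  · exfalso
    obtain ⟨e1, e2, e3⟩ := jump_uniq hL hC u hi hs hp (by linarith) (by linarith) hi' hs' hp'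
      (by linarith) (by linarith)
    subst e1 e2 e3
    linarith

end JumpRow

theorem p_JUMP : T_JUMP := by
  classical
  intro h A hL T hC n u
  have hii1 : ∀ (X : Set ℝ) (x : ℝ), x ∈ X → ii X x = 1 := by
    intro X x hx
    unfold ii
    rw [if_pos hx]
  have hii0 : ∀ (X : Set ℝ) (x : ℝ), x ∉ X → ii X x = 0 := by
    intro X x hx
    unfold ii
    rw [if_neg hx]
  rw [Finset.sum_sigma', Finset.sum_sigma']
  have hL1 := jump_sum ((range h).sigma A) (fun x => u - x.2.1 ∈ T (n - x.1))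
    (fun x => ii (T (n - x.1)) (u - x.2.1)) (fun x _ hx => hii1 _ _ hx) (fun x _ hx => hii0 _ _ hx)
    (by
      rintro ⟨i, p⟩ hx ⟨i', p'⟩ hx' hf hf'
      rw [Finset.mem_sigma, Finset.mem_range] at hx hx'
      have l1 := hL.lt i hx.1 p hx.2
      have l2 := hL.lt i' hx'.1 p' hx'.2
      obtain ⟨e1, _, e3⟩ := jump_uniq hL hC u hx.1 hf hx.2
        (show u - p.1 + p.1 ≤ u by linarith) (show u < u - p.1 + p.2 by linarith) hx'.1 hf' hx'.2
        (show u - p'.1 + p'.1 ≤ u by linarith) (show u < u - p'.1 + p'.2 by linarith)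
      subst e1 e3
      rfl)
  have hR1 := jump_sum ((range h).sigma A) (fun x => u - x.2.2 ∈ T (n - x.1))
    (fun x => ii (T (n - x.1)) (u - x.2.2)) (fun x _ hx => hii1 _ _ hx) (fun x _ hx => hii0 _ _ hx)
    (by
      rintro ⟨i, p⟩ hx ⟨i', p'⟩ hx' hf hf'
      rw [Finset.mem_sigma, Finset.mem_range] at hx hx'
      have l2 := hL.lt i' hx'.1 p' hx'.2
      obtain ⟨e1, _, e3⟩ := jump_end hL hC u hx.1 hf hx.2
        (show u - p.2 + p.2 = u by linarith) hx'.1 hf' hx'.2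
        (show u - p'.2 + p'.1 < u by linarith) (show u ≤ u - p'.2 + p'.2 by linarith)
      subst e1 e3
      rfl)
  have hiff : (∃ x ∈ (range h).sigma A, u - x.2.1 ∈ T (n - x.1)) ↔
      ∃ x ∈ (range h).sigma A, u - x.2.2 ∈ T (n - x.1) := by
    constructor
    · rintro ⟨⟨i, p⟩, hx, hf⟩
      rw [Finset.mem_sigma, Finset.mem_range] at hx
      obtain ⟨i', s', p', hi', hs', hp', he⟩ := jump_c hL hC u hx.1 hf hx.2
        (show u - p.1 + p.1 = u by linarith)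
      refine ⟨⟨i', p'⟩, Finset.mem_sigma.2 ⟨Finset.mem_range.2 hi', hp'⟩, ?_⟩
      have hs : u - p'.2 = s' := by linarith
      show u - p'.2 ∈ T (n - i')
      rw [hs]
      exact hs'
    · rintro ⟨⟨i, p⟩, hx, hf⟩
      rw [Finset.mem_sigma, Finset.mem_range] at hx
      obtain ⟨i', s', p', hi', hs', hp', he⟩ := jump_b hL hC u hx.1 hf hx.2
        (show u - p.2 + p.2 = u by linarith)
      refine ⟨⟨i', p'⟩, Finset.mem_sigma.2 ⟨Finset.mem_range.2 hi', hp'⟩, ?_⟩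
      have hs : u - p'.1 = s' := by linarith
      show u - p'.1 ∈ T (n - i')
      rw [hs]
      exact hs'
  by_cases hE : ∃ x ∈ (range h).sigma A, u - x.2.1 ∈ T (n - x.1)
  · exact (hL1.1 hE).trans (hR1.1 (hiff.1 hE)).symm
  · exact (hL1.2 hE).trans (hR1.2 (fun hh => hE (hiff.2 hh))).symm

end Pool.Agent.MLB
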