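import Pool.Agent.MLB.Targets

set_option autoImplicit false

namespace Pool.Agent.MLB

open Finset

theorem lay_add (x : ℝ) (f g : AddMonoidAlgebra ℂ ℝ) : cum x (f + g) = cum x f + cum x g := by
  classical
  unfold cum
  rw [AddMonoidAlgebra.coeff_add]
  apply Finsupp.sum_add_index'
  · intro a; simp
  · intro a b c; split_ifs <;> simp

theorem lay_single (x e : ℝ) (c : ℂ) :
    cum x (AddMonoidAlgebra.single e c) = if e ≤ x then c else 0 := by
  classical
  unfold cum
  rw [AddMonoidAlgebra.coeff_single]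
  rw [Finsupp.sum_single_index]
  simp

theorem lay_zero (x : ℝ) : cum x 0 = 0 := by
  have h := lay_add x 0 0
  simp only [add_zero] at h
  exact left_eq_add.mp h

theorem lay_sub (x : ℝ) (f g : AddMonoidAlgebra ℂ ℝ) : cum x (f - g) = cum x f - cum x g := by
  have h := lay_add x (f - g) g
  rw [sub_add_cancel] at h
  rw [h]; ring

theorem lay_sum (x : ℝ) (I : Finset (ℝ × ℝ)) (F : ℝ × ℝ → AddMonoidAlgebra ℂ ℝ) :
    cum x (∑ p ∈ I, F p) = ∑ p ∈ I, cum x (F p) := by
  classical
  induction I using Finset.induction_on with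
  | empty => simp [lay_zero]
  | insert a s ha ih => rw [Finset.sum_insert ha, Finset.sum_insert ha, lay_add, ih]

theorem p_LAY : T_LAY := by
  classical
  intro I hlt hsep x
  unfold lay
  rw [lay_sum]
  have h1 : ∀ p ∈ I, cum x (AddMonoidAlgebra.single p.1 1 - AddMonoidAlgebra.single p.2 1)
      = if (p.1 ≤ x ∧ x < p.2) then (1 : ℂ) else 0 := by
    intro p hp
    rw [lay_sub, lay_single, lay_single]
    have := hlt p hp
    by_cases ha : p.1 ≤ x
    · by_cases hb : p.2 ≤ x
      · simp [ha, hb, not_lt.mpr hb]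
      · simp [ha, hb, not_le.mp hb]
    · have hb : ¬ p.2 ≤ x := by
        intro hb; exact ha (by linarith)
      simp [ha, hb]
  rw [Finset.sum_congr rfl h1]
  unfold ind
  by_cases hx : x ∈ hop I
  · rw [if_pos hx]
    obtain ⟨p, hp, hp1, hp2⟩ := hx
    rw [Finset.sum_eq_single p]
    · rw [if_pos ⟨hp1, hp2⟩]
    · intro q hq hqp
      rw [if_neg]
      rintro ⟨hq1, hq2⟩
      rcases hsep p hp q hq (Ne.symm hqp) with h | h
      · linarith
      · linarith
    · intro h; exact absurd hp h
  · rw [if_neg hx]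
    apply Finset.sum_eq_zero
    intro p hp
    rw [if_neg]
    rintro ⟨h1, h2⟩
    exact hx ⟨p, hp, h1, h2⟩

end Pool.Agent.MLB
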