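import Pool.Agent.MLB.Targets

set_option autoImplicit false

namespace Pool.Agent.MLB

namespace meet_

theorem ind_ne {X : Set ℝ} {x : ℝ} : ind X x ≠ 0 ↔ x ∈ X := by
  classical
  unfold ind
  by_cases h : x ∈ X
  · simp [h]
  · simp [h]

theorem loc {X : Set ℝ} (h : FinD X X) (a b : ℝ) : {x | ind X x ≠ 0 ∧ a ≤ x ∧ x ≤ b}.Finite := by
  rcases Set.eq_empty_or_nonempty {x | ind X x ≠ 0 ∧ a ≤ x ∧ x ≤ b} with he | ⟨x0, h0, ha0, hb0⟩
  · rw [he]
    exact Set.finite_empty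
  · refine ((h (b - a)).image (fun d => d + x0)).subset ?_
    rintro x ⟨hx, hax, hbx⟩
    refine ⟨x - x0, ⟨x, ind_ne.1 hx, x0, ind_ne.1 h0, rfl, ?_⟩, by ring⟩
    rw [abs_le]
    constructor <;> linarith

end meet_

theorem p_MEET : T_DET → T_MEET := by
  intro hdet H hH
  obtain ⟨W, hW, h⟩ := hdet H hH
  refine ⟨W, hW, ?_⟩
  intro X hX hA hne c
  by_contra hc
  push Not at hc
  obtain ⟨x, hx⟩ := hne
  have h0 := h (ind X) (meet_.loc hX) hA c (by
    intro y h1 h2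
    by_contra hy
    exact absurd h2 (not_le.2 (hc y (meet_.ind_ne.1 hy) h1))) x
  exact meet_.ind_ne.2 hx h0

end Pool.Agent.MLB
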