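import Pool.Agent.MLB.Targets

set_option autoImplicit false

namespace Pool.Agent.MLB

open Finset

theorem norm_emb_single (e : ℝ) (c : ℂ) :
    emb (AddMonoidAlgebra.single e c) = AddMonoidAlgebra.single ((e, 0) : V) c := by
  unfold emb
  simp [AddMonoidAlgebra.mapDomainRingHom_apply, AddMonoidAlgebra.mapDomain_single]

theorem norm_prod {R : Type*} [CommRing R] {ι : Type*} (s : Finset ι) (u r v q : ι → R) (G : R)
    (h : ∀ i ∈ s, u i = G * r i + v i * q i) :
    ∃ α β : R, ∏ i ∈ s, u i = α * G + β * ∏ i ∈ s, v i := by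
  classical
  induction s using Finset.induction_on with
  | empty => exact ⟨0, 1, by simp⟩
  | insert i s hi ih =>
    obtain ⟨α, β, hab⟩ := ih fun j hj => h j (Finset.mem_insert_of_mem hj)
    have hi' := h i (Finset.mem_insert_self i s)
    refine ⟨r i * (∏ j ∈ s, u j) + v i * q i * α, q i * β, ?_⟩
    rw [Finset.prod_insert hi, Finset.prod_insert hi]
    calc u i * ∏ j ∈ s, u j = G * r i * (∏ j ∈ s, u j) + v i * q i * ∏ j ∈ s, u j := by
          rw [hi']; ring
      _ = G * r i * (∏ j ∈ s, u j) + v i * q i * (α * G + β * ∏ j ∈ s, v j) := by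
          rw [← hab]
      _ = _ := by ring

theorem norm_one_sub_ne (x : ℝ) (hx : x ≠ 0) :
    (1 - AddMonoidAlgebra.single x 1 : AddMonoidAlgebra ℂ ℝ) ≠ 0 := by
  intro h
  have h1 : (1 : AddMonoidAlgebra ℂ ℝ) = AddMonoidAlgebra.single x 1 := sub_eq_zero.1 h
  have h2 := congrArg (fun f : AddMonoidAlgebra ℂ ℝ => f.coeff 0) h1
  simp [AddMonoidAlgebra.one_def, AddMonoidAlgebra.coeff_single, hx] at h2

/-- the main case -/
theorem norm_pos (h : ℕ) (a : ℕ → AddMonoidAlgebra ℂ ℝ)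
    (ha : ∀ (γ : ℝ) (ζ : ℂ), (∃ k : ℕ, 0 < k ∧ ζ ^ k = 1) →
      ∑ i ∈ range h, AddMonoidAlgebra.single (-(i * γ)) (ζ ^ i) * a i ≠ 0)
    (x : ℝ) (b : ℕ) (hb : 0 < b) : ∃ H : AddMonoidAlgebra ℂ ℝ, H ≠ 0 ∧
      ∃ α β : AddMonoidAlgebra ℂ V,
        emb H = α * GG h a + β * (1 - AddMonoidAlgebra.single ((x, (b : ℤ)) : V) 1) := by
  classical
  set γ : ℝ := x / b with hγ
  set y : AddMonoidAlgebra ℂ V := AddMonoidAlgebra.single ((γ, 1) : V) 1 with hy
  have hyb : y ^ b = AddMonoidAlgebra.single ((x, (b : ℤ)) : V) 1 := by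
    rw [hy, AddMonoidAlgebra.single_pow, one_pow]
    have hb' : (b : ℝ) ≠ 0 := by positivity
    have : b • ((γ, 1) : V) = (x, (b : ℤ)) := by
      ext
      · simp [hγ, mul_div_cancel₀ _ hb', nsmul_eq_mul]
      · simp
    rw [this]
  set C : ℂ → AddMonoidAlgebra ℂ V := fun ζ => AddMonoidAlgebra.single (0 : V) ζ with hC
  set u : ℂ → AddMonoidAlgebra ℂ ℝ := fun ζ =>
    ∑ i ∈ range h, AddMonoidAlgebra.single (-(i * γ)) (ζ ^ i) * a i with hu
  have key : ∀ ζ : ℂ, ∃ q : AddMonoidAlgebra ℂ V, GG h a - emb (u ζ) = (y - C ζ) * q := by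
    intro ζ
    have e1 : GG h a - emb (u ζ) = ∑ i ∈ range h,
        emb (a i) * AddMonoidAlgebra.single ((-(i * γ), 0) : V) 1 * (y ^ i - C ζ ^ i) := by
      rw [GG, hu, map_sum, ← Finset.sum_sub_distrib]
      refine Finset.sum_congr rfl fun i _ => ?_
      rw [map_mul, norm_emb_single, mul_sub]
      congr 1
      · rw [mul_assoc, hy, AddMonoidAlgebra.single_pow, AddMonoidAlgebra.single_mul_single]
        congr 2
        · ext <;> simp
        · simp
      · rw [mul_comm (AddMonoidAlgebra.single _ _) (emb (a i)), mul_assoc, hC]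
        simp only
        rw [AddMonoidAlgebra.single_pow, AddMonoidAlgebra.single_mul_single]
        simp
    have e2 : (y - C ζ) ∣ GG h a - emb (u ζ) := by
      rw [e1]
      refine Finset.dvd_sum fun i _ => ?_
      exact Dvd.dvd.mul_left (sub_dvd_pow_sub_pow y (C ζ) i) _
    exact e2
  choose q hq using key
  have hprim : IsPrimitiveRoot (Complex.exp (2 * Real.pi * Complex.I / b)) b :=
    Complex.isPrimitiveRoot_exp b hb.ne'
  have hprod : ∏ ζ ∈ Polynomial.nthRootsFinset b (1 : ℂ), (y - C ζ) = y ^ b - 1 := by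
    have h1 := Polynomial.X_pow_sub_one_eq_prod hb hprim
    have h2 := congrArg (Polynomial.aeval (R := ℂ) y) h1
    rw [map_prod] at h2
    simp only [map_sub, map_pow, Polynomial.aeval_X, map_one, Polynomial.aeval_C] at h2
    rw [h2]
    refine Finset.prod_congr rfl fun ζ _ => ?_
    rw [hC, AddMonoidAlgebra.coe_algebraMap]
    simp
  obtain ⟨α, β, hab⟩ := norm_prod (Polynomial.nthRootsFinset b (1 : ℂ)) (fun ζ => emb (u ζ))
    (fun _ => 1) (fun ζ => y - C ζ) (fun ζ => - q ζ) (GG h a)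
    (fun ζ _ => by
      have := hq ζ
      linear_combination (-1 : AddMonoidAlgebra ℂ V) * this)
  refine ⟨∏ ζ ∈ Polynomial.nthRootsFinset b (1 : ℂ), u ζ, ?_, α, -β, ?_⟩
  · rw [Finset.prod_ne_zero_iff]
    intro ζ hζ
    rw [Polynomial.mem_nthRootsFinset hb] at hζ
    exact ha γ ζ ⟨b, hb, hζ⟩
  · rw [map_prod, hab, hprod, hyb]
    ring

theorem p_NORM : T_NORM := by
  intro h a ha d hd
  obtain ⟨x, n⟩ := d
  rcases lt_trichotomy n 0 with hn | hn | hn
  · obtain ⟨b, hb⟩ : ∃ b : ℕ, (b : ℤ) = -n := ⟨(-n).toNat, by omega⟩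
    have hb0 : 0 < b := by omega
    obtain ⟨H, hH, α, β, hab⟩ := norm_pos h a ha (-x) b hb0
    refine ⟨H, hH, α, -(β * AddMonoidAlgebra.single ((-x, -n) : V) 1), ?_⟩
    rw [hab, hb]
    have e : AddMonoidAlgebra.single ((-x, -n) : V) (1 : ℂ) *
        AddMonoidAlgebra.single ((x, n) : V) 1 = 1 := by
      rw [AddMonoidAlgebra.single_mul_single, AddMonoidAlgebra.one_def]
      congr 1
      · ext <;> simp
      · simp
    linear_combination (-β) * e
  · subst hn
    have hx : x ≠ 0 := by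
      rintro rfl
      exact hd rfl
    refine ⟨1 - AddMonoidAlgebra.single x 1, norm_one_sub_ne x hx, 0, 1, ?_⟩
    rw [map_sub, map_one, norm_emb_single]
    ring
  · obtain ⟨b, hb⟩ : ∃ b : ℕ, (b : ℤ) = n := ⟨n.toNat, by omega⟩
    have hb0 : 0 < b := by omega
    subst hb
    exact norm_pos h a ha x b hb0

end Pool.Agent.MLB
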