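import Pool.Agent.MLB.Targets

set_option autoImplicit false

/-!
# MLB, target PER: a common period
-/

namespace Pool.Agent.MLB

open Finset

theorem per_ind_mem {X : Set ℝ} {x : ℝ} (h : x ∈ X) : ind X x = 1 := by
  unfold ind
  exact if_pos h

theorem per_ind_not {X : Set ℝ} {x : ℝ} (h : x ∉ X) : ind X x = 0 := by
  unfold ind
  exact if_neg h

theorem per_ind_iff {X : Set ℝ} {x y : ℝ} (h : ind X x = ind X y) : x ∈ X ↔ y ∈ X := by
  by_cases hx : x ∈ X
  · by_cases hy : y ∈ X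
    · exact ⟨fun _ => hy, fun _ => hx⟩
    · rw [per_ind_mem hx, per_ind_not hy] at h
      exact absurd h one_ne_zero
  · by_cases hy : y ∈ X
    · rw [per_ind_not hx, per_ind_mem hy] at h
      exact absurd h.symm one_ne_zero
    · exact ⟨fun h1 => absurd h1 hx, fun h1 => absurd h1 hy⟩

theorem per_ind_eq {X : Set ℝ} {x y : ℝ} (h : x ∈ X ↔ y ∈ X) : ind X x = ind X y := by
  by_cases hx : x ∈ X
  · rw [per_ind_mem hx, per_ind_mem (h.1 hx)]
  · rw [per_ind_not hx, per_ind_not (fun h1 => hx (h.2 h1))]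

/-- Local finiteness. -/
theorem per_locfin {X : Set ℝ} (h : FinD X X) (a b : ℝ) : {x | x ∈ X ∧ a ≤ x ∧ x ≤ b}.Finite := by
  by_cases hne : ∃ x0, x0 ∈ X ∧ a ≤ x0 ∧ x0 ≤ b
  · obtain ⟨x0, h0, ha0, hb0⟩ := hne
    refine ((h (b - a)).image (fun d => x0 + d)).subset ?_
    rintro x ⟨hx, hxa, hxb⟩
    refine ⟨x - x0, ⟨x, hx, x0, h0, rfl, ?_⟩, ?_⟩
    · rw [abs_le]
      constructor <;> linarith
    · change x0 + (x - x0) = x
      ring
  · refine Set.Finite.subset Set.finite_empty ?_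
    rintro x hx
    exact absurd ⟨x, hx⟩ hne

theorem per_ann_sub {H : AddMonoidAlgebra ℂ ℝ} {X : Set ℝ} (hA : Ann H (ind X)) (P : ℝ) :
    Ann H (fun x => ind X (x + P) - ind X x) := by
  intro x
  have h1 := hA (x + P)
  have h2 := hA x
  have h3 : (H.coeff.sum fun e c => c * (ind X (x - e + P) - ind X (x - e))) =
      (H.coeff.sum fun e c => c * ind X (x + P - e)) -
        (H.coeff.sum fun e c => c * ind X (x - e)) := by
    rw [← Finsupp.sum_sub]
    refine Finsupp.sum_congr fun e _ => ?_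
    rw [mul_sub, show x - e + P = x + P - e by ring]
  change (H.coeff.sum fun e c => c * (ind X (x - e + P) - ind X (x - e))) = 0
  rw [h3, h1, h2, sub_zero]

theorem p_PER : T_DET → T_MEET → T_PER := by
  intro hDET hMEET H hH ι _ X hAnn hFin
  by_cases hall : ∀ i, X i = ∅
  · refine ⟨1, one_pos, fun i x => ?_⟩
    rw [hall i]
    exact Iff.rfl
  · obtain ⟨i0, hi0⟩ := not_forall.1 hall
    have hne : (X i0).Nonempty := Set.nonempty_iff_ne_empty.2 hi0
    obtain ⟨W1, hW1, hdet⟩ := hDET H hH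
    obtain ⟨W2, hW2, hmeet⟩ := hMEET H hH
    have hM := hmeet (X i0) (hFin i0 i0) (hAnn i0) hne
    obtain ⟨W, hWdef⟩ : ∃ W, W = max W1 W2 := ⟨_, rfl⟩
    have hWW1 : W1 ≤ W := hWdef ▸ le_max_left _ _
    have hWW2 : W2 ≤ W := hWdef ▸ le_max_right _ _
    have hW : 0 < W := lt_of_lt_of_le hW1 hWW1
    have hy : ∀ k : ℕ, ∃ y, y ∈ X i0 ∧ 2 * (k : ℝ) * W ≤ y ∧ y ≤ (2 * (k : ℝ) + 1) * W := by
      intro k
      obtain ⟨y, hyX, hy1, hy2⟩ := hM (2 * (k : ℝ) * W)
      exact ⟨y, hyX, hy1, by linarith⟩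
    choose y hyX hy1 hy2 using hy
    have hDfin : (⋃ i : ι, {d : ℝ | ∃ x ∈ X i, ∃ z ∈ X i0, d = x - z ∧ |d| ≤ W}).Finite :=
      Set.finite_iUnion fun i => hFin i i0 W
    obtain ⟨D, hD⟩ : ∃ D : Set ℝ,
      D = ⋃ i : ι, {d : ℝ | ∃ x ∈ X i, ∃ z ∈ X i0, d = x - z ∧ |d| ≤ W} := ⟨_, rfl⟩
    rw [← hD] at hDfin
    have hmemD : ∀ (i : ι) (x z : ℝ), x ∈ X i → z ∈ X i0 → |x - z| ≤ W → x - z ∈ D := by
      intro i x z hx hz hd
      rw [hD]
      exact Set.mem_iUnion.2 ⟨i, x, hx, z, hz, rfl, hd⟩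
    have : Finite D := hDfin
    have : Finite (Set (D × ι)) := inferInstance
    obtain ⟨k, k', hkk, hpat⟩ : ∃ k k' : ℕ, k < k' ∧
        ({p : D × ι | y k + p.1 ∈ X p.2} : Set (D × ι)) = {p : D × ι | y k' + p.1 ∈ X p.2} := by
      obtain ⟨a, b, hab, hf⟩ := Finite.exists_ne_map_eq_of_infinite
        (fun k : ℕ => ({p : D × ι | y k + p.1 ∈ X p.2} : Set (D × ι)))
      rcases lt_or_gt_of_ne hab with h | h
      · exact ⟨a, b, h, hf⟩
      · exact ⟨b, a, h, hf.symm⟩
    have hpat' : ∀ (d : ℝ) (i : ι), d ∈ D → (y k + d ∈ X i ↔ y k' + d ∈ X i) := by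
      intro d i hd
      have h1 : ((⟨d, hd⟩, i) : D × ι) ∈ ({p : D × ι | y k + p.1 ∈ X p.2} : Set (D × ι)) ↔
          ((⟨d, hd⟩, i) : D × ι) ∈ ({p : D × ι | y k' + p.1 ∈ X p.2} : Set (D × ι)) := by
        rw [hpat]
      exact h1
    have hP : 0 < y k' - y k := by
      have h1 := hy1 k'
      have h2 := hy2 k
      have h3 : (k : ℝ) + 1 ≤ k' := by exact_mod_cast hkk
      nlinarith
    refine ⟨y k' - y k, hP, fun i x => ?_⟩
    have hs := hdet (fun x => ind (X i) (x + (y k' - y k)) - ind (X i) x) ?_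
      (per_ann_sub (hAnn i) _) (y k) ?_ x
    · exact per_ind_iff (sub_eq_zero.1 hs)
    · intro a b
      refine ((per_locfin (hFin i i) a b).union
        ((per_locfin (hFin i i) (a + (y k' - y k)) (b + (y k' - y k))).image
          (fun z => z - (y k' - y k)))).subset ?_
      rintro z ⟨hz, hza, hzb⟩
      by_cases h1 : z ∈ X i
      · exact Or.inl ⟨h1, hza, hzb⟩
      · by_cases h2 : z + (y k' - y k) ∈ X i
        · exact Or.inr ⟨z + (y k' - y k), ⟨h2, by linarith, by linarith⟩, by ring⟩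
        · exact absurd (by rw [per_ind_not h1, per_ind_not h2, sub_zero]) hz
    · intro z hz1 hz2
      have hdist : |z - y k| ≤ W := by
        rw [abs_le]
        constructor <;> linarith
      refine sub_eq_zero.2 (per_ind_eq ?_)
      constructor
      · intro h1
        have hd : z + (y k' - y k) - y k' ∈ D := by
          refine hmemD i _ _ h1 (hyX k') ?_
          rwa [show z + (y k' - y k) - y k' = z - y k by ring]
        have h2 := (hpat' _ i hd).2
        rw [show y k' + (z + (y k' - y k) - y k') = z + (y k' - y k) by ring,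
          show y k + (z + (y k' - y k) - y k') = z by ring] at h2
        exact h2 h1
      · intro h1
        have hd : z - y k ∈ D := hmemD i _ _ h1 (hyX k) hdist
        have h2 := (hpat' _ i hd).1
        rw [show y k + (z - y k) = z by ring,
          show y k' + (z - y k) = z + (y k' - y k) by ring] at h2
        exact h2 h1

end Pool.Agent.MLB
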