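import Pool.Agent.MLB.Targets

set_option autoImplicit false

namespace Pool.Agent.MLB

open Finset

/-- The half-open cell, as a relation. -/
def pr_Q (m i : ℕ) (p : ℝ × ℝ) (z t : ℝ × ℝ) : Prop :=
  p.1 ≤ z.1 - t.1 ∧ z.1 - t.1 < p.2 ∧ (m * i : ℝ) ≤ z.2 - t.2 ∧ z.2 - t.2 < m * i + 1

/-- The open cell, as a relation. -/
def pr_O (m i : ℕ) (p : ℝ × ℝ) (z t : ℝ × ℝ) : Prop :=
  p.1 < z.1 - t.1 ∧ z.1 - t.1 < p.2 ∧ (m * i : ℝ) < z.2 - t.2 ∧ z.2 - t.2 < m * i + 1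

lemma pr_interior {h m : ℕ} {A : ℕ → Finset (ℝ × ℝ)} {i : ℕ} (hi : i < h) {p : ℝ × ℝ}
    (hp : p ∈ A i) {z t : ℝ × ℝ} (hz : pr_O m i p z t) :
    z ∈ interior ((fun z => z + t) '' body h m A) := by
  rw [mem_interior]
  refine ⟨{z | pr_O m i p z t}, ?_, ?_, hz⟩
  · intro w hw
    obtain ⟨h1, h2, h3, h4⟩ := hw
    exact ⟨w - t, ⟨i, hi, p, hp, h1.le, h2.le, h3.le, h4.le⟩, by simp⟩
  · have c1 : Continuous fun w : ℝ × ℝ => w.1 - t.1 := by fun_prop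
    have c2 : Continuous fun w : ℝ × ℝ => w.2 - t.2 := by fun_prop
    exact (isOpen_lt continuous_const c1).inter ((isOpen_lt c1 continuous_const).inter
      ((isOpen_lt continuous_const c2).inter (isOpen_lt c2 continuous_const)))

lemma pr_meet {h m : ℕ} {A : ℕ → Finset (ℝ × ℝ)} {T : Set (ℝ × ℝ)} (hT : Tiling (body h m A) T)
    {i i' : ℕ} (hi : i < h) (hi' : i' < h) {p p' : ℝ × ℝ} (hp : p ∈ A i) (hp' : p' ∈ A i')
    {z t t' : ℝ × ℝ} (ht : t ∈ T) (ht' : t' ∈ T) (hz : pr_O m i p z t) (hz' : pr_O m i' p' z t') :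
    t = t' := by
  by_contra hne
  exact Set.disjoint_left.1 (hT.2 t ht t' ht' hne) (pr_interior hi hp hz) (pr_interior hi' hp' hz')

lemma pr_H1 {h m : ℕ} (hm : 0 < m) {A : ℕ → Finset (ℝ × ℝ)} {T : Set (ℝ × ℝ)}
    (hT : Tiling (body h m A) T) {i i' : ℕ} (hi : i < h) (hi' : i' < h) {p p' : ℝ × ℝ}
    (hp : p ∈ A i) (hp' : p' ∈ A i') {z t t' : ℝ × ℝ} (ht : t ∈ T) (ht' : t' ∈ T)
    (hz : pr_Q m i p z t) (hz' : pr_Q m i' p' z t') : t = t' ∧ i = i' := by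
  obtain ⟨a1, a2, a3, a4⟩ := hz
  obtain ⟨b1, b2, b3, b4⟩ := hz'
  have key : t = t' := by
    obtain ⟨e, he⟩ : ∃ e : ℝ, e = min (min (p.2 - (z.1 - t.1)) (p'.2 - (z.1 - t'.1)))
        (min (m * i + 1 - (z.2 - t.2)) (m * i' + 1 - (z.2 - t'.2))) := ⟨_, rfl⟩
    have e1 : e ≤ p.2 - (z.1 - t.1) := he ▸ (min_le_left _ _).trans (min_le_left _ _)
    have e2 : e ≤ p'.2 - (z.1 - t'.1) := he ▸ (min_le_left _ _).trans (min_le_right _ _)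
    have e3 : e ≤ m * i + 1 - (z.2 - t.2) := he ▸ (min_le_right _ _).trans (min_le_left _ _)
    have e4 : e ≤ m * i' + 1 - (z.2 - t'.2) := he ▸ (min_le_right _ _).trans (min_le_right _ _)
    have e0 : 0 < e := by
      rw [he]
      exact lt_min (lt_min (by linarith) (by linarith)) (lt_min (by linarith) (by linarith))
    refine pr_meet hT hi hi' hp hp' (z := (z.1 + e / 2, z.2 + e / 2)) ht ht' ?_ ?_
    · refine ⟨?_, ?_, ?_, ?_⟩ <;> simp only <;> linarith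
    · refine ⟨?_, ?_, ?_, ?_⟩ <;> simp only <;> linarith
  refine ⟨key, ?_⟩
  subst key
  have h1 : (m * i : ℝ) < m * i' + 1 := lt_of_le_of_lt a3 b4
  have h2 : (m * i' : ℝ) < m * i + 1 := lt_of_le_of_lt b3 a4
  have h3 : m * i < m * i' + 1 := by exact_mod_cast h1
  have h4 : m * i' < m * i + 1 := by exact_mod_cast h2
  have h5 : m * i = m * i' := by omega
  exact Nat.eq_of_mul_eq_mul_left hm h5

lemma pr_floor {w a b : ℝ} (hw : 0 < w) (h : ⌊a / w⌋ = ⌊b / w⌋) : |a - b| < w := by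
  have h1 := Int.abs_sub_lt_one_of_floor_eq_floor h
  have h2 : a / w - b / w = (a - b) / w := by ring
  rw [h2, abs_div, abs_of_pos hw, div_lt_one hw] at h1
  exact h1

lemma pr_H2 {h m : ℕ} {A : ℕ → Finset (ℝ × ℝ)} (hA : Layers h A) {T : Set (ℝ × ℝ)}
    (hT : Tiling (body h m A) T) (R : ℝ) : {t ∈ T | |t.1| ≤ R ∧ |t.2| ≤ R}.Finite := by
  obtain ⟨p, hp⟩ := hA.ne 0 hA.pos
  have hw : 0 < p.2 - p.1 := by
    have := hA.lt 0 hA.pos p hp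
    linarith
  obtain ⟨w, hwe⟩ : ∃ w, w = p.2 - p.1 := ⟨_, rfl⟩
  rw [← hwe] at hw
  refine Set.Finite.of_injOn (f := fun t : ℝ × ℝ => (⌊t.1 / w⌋, ⌊t.2⌋))
    (t := Set.Icc (⌊-R / w⌋) (⌊R / w⌋) ×ˢ Set.Icc (⌊-R⌋) (⌊R⌋)) ?_ ?_
    ((Set.finite_Icc _ _).prod (Set.finite_Icc _ _))
  · rintro t ⟨-, h1, h2⟩
    rw [abs_le] at h1 h2
    refine ⟨⟨Int.floor_le_floor ?_, Int.floor_le_floor ?_⟩, Int.floor_le_floor h2.1,
      Int.floor_le_floor h2.2⟩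
    · exact div_le_div_of_nonneg_right h1.1 hw.le
    · exact div_le_div_of_nonneg_right h1.2 hw.le
  · rintro t ⟨ht, -⟩ t' ⟨ht', -⟩ he
    simp only [Prod.mk.injEq] at he
    have h1 := pr_floor hw he.1
    have h2 := Int.abs_sub_lt_one_of_floor_eq_floor he.2
    rw [abs_lt] at h1 h2
    refine pr_meet hT hA.pos hA.pos hp hp
      (z := (p.1 + (t.1 + t'.1 + w) / 2, (t.2 + t'.2 + 1) / 2)) ht ht' ?_ ?_
    · refine ⟨?_, ?_, ?_, ?_⟩ <;> simp only [Nat.cast_zero, mul_zero] <;> linarith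
    · refine ⟨?_, ?_, ?_, ?_⟩ <;> simp only [Nat.cast_zero, mul_zero] <;> linarith

lemma pr_pigeon {α : Type*} (F : ℕ → α) {S : Set α} (hS : S.Finite) (hF : ∀ k, F k ∈ S) :
    ∃ a ∈ S, ∀ N, ∃ k ≥ N, F k = a := by
  by_contra h
  push Not at h
  choose! N hN using h
  obtain ⟨M, hM⟩ := (hS.toFinset.image N).exists_le
  exact hN (F M) (hF M) M (hM _ (mem_image_of_mem _ (hS.mem_toFinset.2 (hF M)))) rfl

lemma pr_H3 {h m : ℕ} {A : ℕ → Finset (ℝ × ℝ)} (hA : Layers h A) {T : Set (ℝ × ℝ)}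
    (hT : Tiling (body h m A) T) (z : ℝ × ℝ) :
    ∃ t ∈ T, ∃ i < h, ∃ p ∈ A i, pr_Q m i p z t := by
  have hc : ∀ k : ℕ, ∃ q : (ℝ × ℝ) × ℕ × (ℝ × ℝ), q.1 ∈ T ∧ q.2.1 < h ∧ q.2.2 ∈ A q.2.1 ∧
      q.2.2.1 ≤ z.1 + 1 / ((k : ℝ) + 1) - q.1.1 ∧ z.1 + 1 / ((k : ℝ) + 1) - q.1.1 ≤ q.2.2.2 ∧
      (m * q.2.1 : ℝ) ≤ z.2 + 1 / ((k : ℝ) + 1) - q.1.2 ∧
      z.2 + 1 / ((k : ℝ) + 1) - q.1.2 ≤ m * q.2.1 + 1 := by
    intro k
    obtain ⟨t, ht, i, hi, p, hp, h1, h2, h3, h4⟩ :=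
      hT.1 (z.1 + 1 / ((k : ℝ) + 1), z.2 + 1 / ((k : ℝ) + 1))
    exact ⟨(t, i, p), ht, hi, hp, h1, h2, h3, h4⟩
  choose F hF using hc
  obtain ⟨M, hM⟩ := (((range h).biUnion A).image fun p : ℝ × ℝ => |p.1| + |p.2|).exists_le
  have hM' : ∀ i < h, ∀ p ∈ A i, |p.1| + |p.2| ≤ M := fun i hi p hp =>
    hM _ (mem_image_of_mem _ (mem_biUnion.2 ⟨i, mem_range.2 hi, hp⟩))
  obtain ⟨R, hR⟩ : ∃ R : ℝ, R = |z.1| + |z.2| + M + m * h + 2 := ⟨_, rfl⟩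
  have hfin : ({t ∈ T | |t.1| ≤ R ∧ |t.2| ≤ R} ×ˢ ((Set.Iio h) ×ˢ
      (((range h).biUnion A : Finset (ℝ × ℝ)) : Set (ℝ × ℝ)))).Finite :=
    (pr_H2 hA hT R).prod ((Set.finite_Iio h).prod (Finset.finite_toSet _))
  have hmem : ∀ k, F k ∈ ({t ∈ T | |t.1| ≤ R ∧ |t.2| ≤ R} ×ˢ ((Set.Iio h) ×ˢ
      (((range h).biUnion A : Finset (ℝ × ℝ)) : Set (ℝ × ℝ)))) := by
    intro k
    obtain ⟨h1, h2, h3, h4, h5, h6, h7⟩ := hF k
    have h8 := hM' _ h2 _ h3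
    have k0 : (0 : ℝ) < 1 / ((k : ℝ) + 1) := by positivity
    have k1 : 1 / ((k : ℝ) + 1) ≤ 1 := by
      rw [div_le_one (by positivity)]
      have : (0 : ℝ) ≤ k := Nat.cast_nonneg k
      linarith
    have a1 := neg_abs_le z.1
    have a2 := le_abs_self z.1
    have a3 := neg_abs_le z.2
    have a4 := le_abs_self z.2
    have b1 := neg_abs_le (F k).2.2.1
    have b2 := le_abs_self (F k).2.2.1
    have b3 := neg_abs_le (F k).2.2.2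
    have b4 := le_abs_self (F k).2.2.2
    have c1 := abs_nonneg (F k).2.2.1
    have c2 := abs_nonneg (F k).2.2.2
    have c3 := abs_nonneg z.1
    have c4 := abs_nonneg z.2
    have m0 : (0 : ℝ) ≤ m * (F k).2.1 := by positivity
    have m1 : (m * (F k).2.1 : ℝ) ≤ m * h :=
      mul_le_mul_of_nonneg_left (by exact_mod_cast h2.le) (by positivity)
    refine ⟨⟨h1, ?_, ?_⟩, h2, ?_⟩
    · rw [abs_le]
      constructor <;> linarith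
    · rw [abs_le]
      constructor <;> linarith
    · rw [Finset.mem_coe, mem_biUnion]
      exact ⟨_, mem_range.2 h2, h3⟩
  obtain ⟨q, -, hq⟩ := pr_pigeon F hfin hmem
  have hk : ∀ e : ℝ, 0 < e → ∃ k : ℕ, F k = q ∧ 1 / ((k : ℝ) + 1) ≤ e := by
    intro e he
    obtain ⟨N, hN⟩ := exists_nat_one_div_lt he
    obtain ⟨k, hk, hkq⟩ := hq N
    refine ⟨k, hkq, le_trans ?_ hN.le⟩
    exact one_div_le_one_div_of_le (by positivity) (by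
      have : (N : ℝ) ≤ k := by exact_mod_cast hk
      linarith)
  obtain ⟨k, hkq, -⟩ := hk 1 one_pos
  obtain ⟨h1, h2, h3, h4, h5, h6, h7⟩ := hF k
  rw [hkq] at h1 h2 h3 h4 h5 h6 h7
  have k0 : (0 : ℝ) < 1 / ((k : ℝ) + 1) := by positivity
  refine ⟨q.1, h1, q.2.1, h2, q.2.2, h3, ?_, by linarith, ?_, by linarith⟩
  · refine le_of_forall_pos_le_add fun e he => ?_
    obtain ⟨k', hk', hke⟩ := hk e he
    have := (hF k').2.2.2.1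
    rw [hk'] at this
    linarith
  · refine le_of_forall_pos_le_add fun e he => ?_
    obtain ⟨k', hk', hke⟩ := hk e he
    have := (hF k').2.2.2.2.2.1
    rw [hk'] at this
    linarith

theorem p_PR : T_PR := by
  intro h m A hm hA T hT
  refine ⟨fun n => {x | ∃ y : ℝ, (x, y) ∈ T ∧ ⌈y⌉ = (m : ℤ) * n}, fun n u => ?_⟩
  obtain ⟨⟨x, y⟩, ht, i, hi, p, hp, hQ⟩ := pr_H3 hA hT (u, (m : ℝ) * n)
  obtain ⟨a1, a2, a3, a4⟩ := hQ
  simp only at a1 a2 a3 a4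
  refine ⟨(i, x), ⟨hi, ⟨y, ht, ?_⟩, ⟨p, hp, a1, a2⟩⟩, ?_⟩
  · rw [Int.ceil_eq_iff]
    push_cast
    constructor <;> linarith
  · rintro ⟨i', x'⟩ ⟨hi', ⟨y', ht', hy'⟩, ⟨p', hp', b1, b2⟩⟩
    simp only at hi' hy' b1 b2 hp'
    rw [Int.ceil_eq_iff] at hy'
    push_cast at hy'
    obtain ⟨c1, c2⟩ := hy'
    have := pr_H1 hm hT hi' hi hp' hp (z := (u, (m : ℝ) * n)) ht' ht
      ⟨b1, b2, by simp only; linarith, by simp only; linarith⟩ ⟨a1, a2, a3, a4⟩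
    obtain ⟨h1, h2⟩ := this
    simp only [Prod.mk.injEq] at h1
    rw [h2, h1.1]

end Pool.Agent.MLB
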