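import Pool.Agent.MLB.Targets

set_option autoImplicit false

namespace Pool.Agent.MLB

open Finset Filter Topology

theorem rp_cell (h m : ℕ) (A : ℕ → Finset (ℝ × ℝ)) (s : ℝ) (k : ℤ) (z : ℝ × ℝ)
    (hz : z ∈ interior ((fun w : ℝ × ℝ => w + (s, (k : ℝ))) '' body h m A)) :
    ∃ i < h, z.1 - s ∈ hop (A i) ∧ ⌊z.2⌋ = k + m * i := by
  have h1 : ∀ᶠ δ in 𝓝[>] (0 : ℝ),
      z + (δ, δ) ∈ interior ((fun w : ℝ × ℝ => w + (s, (k : ℝ))) '' body h m A) := by
    have hc : Continuous (fun δ : ℝ => z + (δ, δ)) := by fun_prop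
    have h0 : (fun δ : ℝ => z + (δ, δ)) 0 ∈
        interior ((fun w : ℝ × ℝ => w + (s, (k : ℝ))) '' body h m A) := by
      have : z + ((0 : ℝ), (0 : ℝ)) = z := by
        ext <;> simp
      simp only [this]
      exact hz
    exact ((hc.tendsto 0).eventually (isOpen_interior.mem_nhds h0)).filter_mono
      nhdsWithin_le_nhds
  have hsmall : ∀ b : ℝ, 0 < b → ∀ᶠ δ in 𝓝[>] (0 : ℝ), δ < b := fun b hb =>
    (eventually_lt_nhds hb).filter_mono nhdsWithin_le_nhds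
  have h2 : ∀ᶠ δ in 𝓝[>] (0 : ℝ), ∀ i ∈ range h, ∀ p ∈ A i,
      p.1 ≤ z.1 - s + δ → p.1 ≤ z.1 - s := by
    refine (Finset.eventually_all _).2 fun i _ => (Finset.eventually_all _).2 fun p _ => ?_
    by_cases hp : p.1 ≤ z.1 - s
    · exact Eventually.of_forall fun _ _ => hp
    · push Not at hp
      filter_upwards [hsmall (p.1 - (z.1 - s)) (by linarith)] with δ hδ hle
      exfalso
      linarith
  have h3 : ∀ᶠ δ in 𝓝[>] (0 : ℝ), δ < ⌊z.2⌋ + 1 - z.2 :=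
    hsmall _ (by linarith [Int.lt_floor_add_one z.2])
  have h4 : ∀ᶠ δ in 𝓝[>] (0 : ℝ), 0 < δ := eventually_mem_nhdsWithin
  obtain ⟨δ, hδ1, hδ2, hδ3, hδ4⟩ := (h1.and (h2.and (h3.and h4))).exists
  obtain ⟨c, hc, hce⟩ := interior_subset hδ1
  obtain ⟨i, hi, p, hp, ha, hb, hc1, hc2⟩ := hc
  have e1 : c.1 = z.1 - s + δ := by
    have := congrArg Prod.fst hce
    simp only [Prod.fst_add] at this
    linarith
  have e2 : c.2 = z.2 - k + δ := by
    have := congrArg Prod.snd hce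
    simp only [Prod.snd_add] at this
    linarith
  rw [e1] at ha hb
  rw [e2] at hc1 hc2
  refine ⟨i, hi, ⟨p, hp, hδ2 i (mem_range.2 hi) p hp ha, by linarith⟩, ?_⟩
  have hk1 : k + (m : ℤ) * i < ⌊z.2⌋ + 1 := by
    have : ((k + (m : ℤ) * i : ℤ) : ℝ) < ((⌊z.2⌋ + 1 : ℤ) : ℝ) := by
      push_cast
      linarith
    exact_mod_cast this
  have hk2 : ⌊z.2⌋ < k + (m : ℤ) * i + 1 := by
    rw [Int.floor_lt]
    push_cast
    linarith
  omega

theorem p_RP : T_RP := by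
  intro h m A hm _hL S P θ K hC hP
  obtain ⟨hP0, hK0, hPP, hPθ⟩ := hP
  have hmz : (0 : ℤ) < m := by exact_mod_cast hm
  have hmr : (0 : ℝ) < m := by exact_mod_cast hm
  refine ⟨{z | ∃ (n : ℤ) (ρ : ℕ), ρ < m ∧ z.2 = m * n + ρ ∧ z.1 ∈ S n}, ⟨?_, ?_⟩, ?_⟩
  · rintro ⟨u, v⟩
    obtain ⟨⟨i, s⟩, ⟨hi, hs, hh⟩, _⟩ := hC (⌊v⌋ / m) u
    obtain ⟨p, hp, hp1, hp2⟩ := hh
    simp only at hi hs hp hp1 hp2
    have hr0 : 0 ≤ ⌊v⌋ % (m : ℤ) := Int.emod_nonneg _ hmz.ne'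
    have hr1 : ⌊v⌋ % (m : ℤ) < m := Int.emod_lt_of_pos _ hmz
    have hdm : (m : ℤ) * (⌊v⌋ / m) + ⌊v⌋ % m = ⌊v⌋ := Int.mul_ediv_add_emod _ _
    have hρ : (((⌊v⌋ % (m : ℤ)).toNat : ℕ) : ℤ) = ⌊v⌋ % (m : ℤ) := Int.toNat_of_nonneg hr0
    have hρr : (((⌊v⌋ % (m : ℤ)).toNat : ℕ) : ℝ) = ((⌊v⌋ % (m : ℤ) : ℤ) : ℝ) := by
      exact_mod_cast congrArg (fun x : ℤ => (x : ℝ)) hρ
    have hdmr : (m : ℝ) * ((⌊v⌋ / m : ℤ) : ℝ) + ((⌊v⌋ % m : ℤ) : ℝ) = (⌊v⌋ : ℝ) := by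
      exact_mod_cast congrArg (fun x : ℤ => (x : ℝ)) hdm
    refine ⟨(s, m * ((⌊v⌋ / m - i : ℤ) : ℝ) + ((⌊v⌋ % (m : ℤ)).toNat : ℕ)),
      ⟨⌊v⌋ / m - i, (⌊v⌋ % (m : ℤ)).toNat, ?_, rfl, hs⟩, ?_⟩
    · have : (((⌊v⌋ % (m : ℤ)).toNat : ℕ) : ℤ) < m := by rw [hρ]; exact hr1
      exact_mod_cast this
    · refine ⟨i, hi, p, hp, hp1, hp2.le, ?_, ?_⟩
      · show (m * i : ℝ) ≤ v - (m * ((⌊v⌋ / m - i : ℤ) : ℝ) + ((⌊v⌋ % (m : ℤ)).toNat : ℕ))
        rw [hρr]
        push_cast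
        have := Int.floor_le v
        nlinarith [hdmr, this]
      · show v - (m * ((⌊v⌋ / m - i : ℤ) : ℝ) + ((⌊v⌋ % (m : ℤ)).toNat : ℕ)) ≤ m * i + 1
        rw [hρr]
        push_cast
        have := Int.lt_floor_add_one v
        nlinarith [hdmr, this]
  · rintro ⟨s, y⟩ ⟨n, ρ, hρ, hy, hs⟩ ⟨s', y'⟩ ⟨n', ρ', hρ', hy', hs'⟩ hne
    simp only at hy hs hy' hs'
    rw [Set.disjoint_left]
    intro z hz hz'
    apply hne
    have hyk : y = (((m : ℤ) * n + ρ : ℤ) : ℝ) := by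
      rw [hy]; push_cast; ring
    have hyk' : y' = (((m : ℤ) * n' + ρ' : ℤ) : ℝ) := by
      rw [hy']; push_cast; ring
    rw [hyk] at hz
    rw [hyk'] at hz'
    obtain ⟨i, hi, hii, hf⟩ := rp_cell h m A s _ z hz
    obtain ⟨i', hi', hii', hf'⟩ := rp_cell h m A s' _ z hz'
    have hρz : (ρ : ℤ) < m := by exact_mod_cast hρ
    have hρz' : (ρ' : ℤ) < m := by exact_mod_cast hρ'
    have e : (m : ℤ) * (n + i) + ρ = (m : ℤ) * (n' + i') + ρ' := by
      have : (m : ℤ) * n + ρ + m * i = (m : ℤ) * n' + ρ' + m * i' := by rw [← hf, ← hf']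
      linarith
    have en : n + i = n' + i' := by
      have e1 : ((m : ℤ) * (n + i) + ρ) / m = n + i := by
        rw [Int.mul_add_ediv_left _ _ hmz.ne', Int.ediv_eq_zero_of_lt (by positivity) hρz,
          add_zero]
      have e2 : ((m : ℤ) * (n' + i') + ρ') / m = n' + i' := by
        rw [Int.mul_add_ediv_left _ _ hmz.ne', Int.ediv_eq_zero_of_lt (by positivity) hρz',
          add_zero]
      rw [← e1, ← e2, e]
    have eρ : (ρ : ℤ) = ρ' := by
      rw [en] at e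
      linarith
    obtain ⟨q, _, hq⟩ := hC (n + i) z.1
    have q1 := hq (i, s) ⟨hi, by simpa using hs, hii⟩
    have q2 := hq (i', s') ⟨hi', by
      show s' ∈ S (n + i - i')
      rw [en]
      simpa using hs', hii'⟩
    have q3 := q1.trans q2.symm
    have qi : i = i' := congrArg Prod.fst q3
    have qs : s = s' := congrArg Prod.snd q3
    subst qi
    subst qs
    have nn : n = n' := by linarith
    subst nn
    have : ρ = ρ' := by exact_mod_cast eρ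
    subst this
    rw [hy, hy']
  · refine ⟨(P, 0), (θ, m * K), ?_, ?_, ?_⟩
    · rw [LinearIndependent.pair_iff]
      intro a b hab
      have h1 := congrArg Prod.fst hab
      have h2 := congrArg Prod.snd hab
      simp only [Prod.smul_mk, Prod.mk_add_mk, smul_eq_mul, mul_zero, zero_add, Prod.fst_zero,
        Prod.snd_zero] at h1 h2
      have hKr : (0 : ℝ) < K := by exact_mod_cast hK0
      have hb : b = 0 := by
        rcases mul_eq_zero.1 h2 with hb | hb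
        · exact hb
        · exact absurd hb (by positivity)
      rw [hb] at h1
      simp only [zero_mul, add_zero] at h1
      rcases mul_eq_zero.1 h1 with ha | ha
      · exact ⟨ha, hb⟩
      · exact absurd ha hP0.ne'
    · rintro ⟨x, y⟩
      constructor
      · rintro ⟨n, ρ, hρ, hy, hs⟩
        refine ⟨n, ρ, hρ, ?_, (hPP n x).1 hs⟩
        simpa using hy
      · rintro ⟨n, ρ, hρ, hy, hs⟩
        refine ⟨n, ρ, hρ, ?_, (hPP n x).2 hs⟩
        simpa using hy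
    · rintro ⟨x, y⟩
      constructor
      · rintro ⟨n, ρ, hρ, hy, hs⟩
        refine ⟨n - K, ρ, hρ, ?_, ?_⟩
        · show y = _
          have hy' : y + m * K = m * n + ρ := hy
          push_cast
          linarith
        · have := hPθ (n - K) x
          rw [sub_add_cancel] at this
          exact this.1 hs
      · rintro ⟨n, ρ, hρ, hy, hs⟩
        refine ⟨n + K, ρ, hρ, ?_, (hPθ n x).2 hs⟩
        show y + m * K = _
        have hy' : y = m * n + ρ := hy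
        push_cast
        linarith

end Pool.Agent.MLB
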