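import Pool.Agent.MLB.Targets

set_option autoImplicit false

namespace Pool.Agent.MLB

open Finset

theorem sg_add (x : ℝ) (f g : AddMonoidAlgebra ℂ ℝ) : cum x (f + g) = cum x f + cum x g := by
  classical
  unfold cum
  rw [AddMonoidAlgebra.coeff_add]
  apply Finsupp.sum_add_index'
  · intro a; simp
  · intro a b c; split_ifs <;> simp

theorem sg_single (x e : ℝ) (c : ℂ) :
    cum x (AddMonoidAlgebra.single e c) = if e ≤ x then c else 0 := by
  classical
  unfold cum
  rw [AddMonoidAlgebra.coeff_single]
  rw [Finsupp.sum_single_index]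
  simp

theorem sg_zero (x : ℝ) : cum x 0 = 0 := by
  have h := sg_add x 0 0
  simp only [add_zero] at h
  exact left_eq_add.mp h

theorem sg_sum (x : ℝ) (I : Finset ℕ) (F : ℕ → AddMonoidAlgebra ℂ ℝ) :
    cum x (∑ p ∈ I, F p) = ∑ p ∈ I, cum x (F p) := by
  classical
  induction I using Finset.induction_on with
  | empty => simp [sg_zero]
  | insert a s ha ih => rw [Finset.sum_insert ha, Finset.sum_insert ha, sg_add, ih]

theorem sg_mul (x e : ℝ) (c : ℂ) (f : AddMonoidAlgebra ℂ ℝ) :
    cum x (AddMonoidAlgebra.single e c * f) = c * cum (x - e) f := by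
  classical
  induction f using AddMonoidAlgebra.induction_linear with
  | zero => simp [sg_zero]
  | add f g hf hg => rw [mul_add, sg_add, sg_add, hf, hg, mul_add]
  | single a b =>
    rw [AddMonoidAlgebra.single_mul_single, sg_single, sg_single]
    by_cases h : a ≤ x - e
    · have h' : e + a ≤ x := by linarith
      rw [if_pos h, if_pos h']
    · have h' : ¬ e + a ≤ x := by
        intro h2; exact h (by linarith)
      rw [if_neg h, if_neg h', mul_zero]

theorem p_SG : T_LAY → T_SG := by
  intro hL h A hA hS γ ζ hζ h0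
  obtain ⟨x, hx⟩ := hS (-γ) ζ hζ
  apply hx
  have h1 : cum x (∑ i ∈ range h, AddMonoidAlgebra.single (-(i * γ)) (ζ ^ i) * lay (A i)) = 0 := by
    rw [h0, sg_zero]
  rw [sg_sum] at h1
  rw [← h1]
  apply Finset.sum_congr rfl
  intro i hi
  rw [sg_mul, hL (A i) (hA.lt i (Finset.mem_range.mp hi)) (hA.sep i (Finset.mem_range.mp hi))]
  congr 2
  ring

end Pool.Agent.MLB
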