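import Pool.Agent.MLB.Targets

set_option autoImplicit false

namespace Pool.Agent.MLB

open Finset

theorem spec_zero (t : V → ℂ) : act 0 t = 0 := by
  funext z
  simp [act]

theorem spec_add (f g : AddMonoidAlgebra ℂ V) (t : V → ℂ) : act (f + g) t = act f t + act g t := by
  funext z
  simp only [act, AddMonoidAlgebra.coeff_add, Pi.add_apply]
  rw [Finsupp.sum_add_index']
  · intro v
    simp
  · intro v a b
    ring

theorem spec_single (v : V) (c : ℂ) (t : V → ℂ) :
    act (AddMonoidAlgebra.single v c) t = fun z => c * t (z - v) := by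
  funext z
  simp only [act, AddMonoidAlgebra.coeff_single]
  rw [Finsupp.sum_single_index]
  simp

theorem spec_fun_zero (f : AddMonoidAlgebra ℂ V) : act f 0 = 0 := by
  funext z
  simp [act]

theorem spec_fun_add (f : AddMonoidAlgebra ℂ V) (s t : V → ℂ) :
    act f (s + t) = act f s + act f t := by
  funext z
  simp only [act, Pi.add_apply]
  rw [← Finsupp.sum_add]
  apply Finsupp.sum_congr
  intro v _
  ring

/-- the action as an additive homomorphism -/
noncomputable def specHom (t : V → ℂ) : AddMonoidAlgebra ℂ V →+ (V → ℂ) where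
  toFun f := act f t
  map_zero' := spec_zero t
  map_add' f g := spec_add f g t

theorem spec_single_mul (v : V) (c : ℂ) (g : AddMonoidAlgebra ℂ V) (t : V → ℂ) :
    act (AddMonoidAlgebra.single v c * g) t = act (AddMonoidAlgebra.single v c) (act g t) := by
  induction g using AddMonoidAlgebra.induction_linear with
  | zero => rw [mul_zero, spec_zero, spec_fun_zero]
  | add x y hx hy => rw [mul_add, spec_add, spec_add, spec_fun_add, hx, hy]
  | single m r =>
    rw [AddMonoidAlgebra.single_mul_single, spec_single, spec_single, spec_single]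
    funext z
    show c * r * t (z - (v + m)) = c * (r * t (z - v - m))
    rw [mul_assoc, sub_sub]

theorem spec_mul (f g : AddMonoidAlgebra ℂ V) (t : V → ℂ) : act (f * g) t = act f (act g t) := by
  induction f using AddMonoidAlgebra.induction_linear with
  | zero => rw [zero_mul, spec_zero, spec_zero]
  | add x y hx hy => rw [add_mul, spec_add, spec_add, hx, hy]
  | single m r => exact spec_single_mul m r g t

theorem spec_sum {ι : Type*} (s : Finset ι) (f : ι → AddMonoidAlgebra ℂ V) (t : V → ℂ) :
    act (∑ i ∈ s, f i) t = ∑ i ∈ s, act (f i) t :=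
  map_sum (specHom t) f s

theorem spec_dil (n : ℕ) (G : AddMonoidAlgebra ℂ V) :
    dil n G = ∑ v ∈ G.coeff.support, AddMonoidAlgebra.single (n • v) (G.coeff v) := by
  unfold dil
  conv_lhs => rw [← AddMonoidAlgebra.sum_coeff_single G]
  rw [Finsupp.sum]
  have hz : ∀ (s : Finset V), AddMonoidAlgebra.mapDomain (fun v => n • v)
      (∑ v ∈ s, AddMonoidAlgebra.single v (G.coeff v)) =
      ∑ v ∈ s, AddMonoidAlgebra.single (n • v) (G.coeff v) := by
    classical
    intro s
    induction s using Finset.induction_on with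
    | empty => simp
    | insert a s ha ih =>
      rw [sum_insert ha, sum_insert ha, AddMonoidAlgebra.mapDomain_add, ih,
        AddMonoidAlgebra.mapDomain_single]
  exact hz _

theorem p_SPEC : T_SPEC := by
  classical
  intro G hG r hr
  set S : Finset V := G.coeff.support with hS
  have hne : S.Nonempty := by
    rw [hS, Finsupp.support_nonempty_iff]
    intro h
    exact hG (AddMonoidAlgebra.coeff_eq_zero.1 h)
  obtain ⟨v₀, hv₀⟩ := hne
  have hc0 : G.coeff v₀ ≠ 0 := Finsupp.mem_support_iff.1 hv₀
  have hinj : ∀ v w : V, r • (v - v₀) = r • (w - v₀) → v = w := by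
    intro v w h
    have h1 : ∀ a b : V, r • a = r • b → a = b := by
      intro a b hab
      have e1 : r • a.1 = r • b.1 := congrArg Prod.fst hab
      have e2 : r • a.2 = r • b.2 := congrArg Prod.snd hab
      rw [nsmul_eq_mul, nsmul_eq_mul] at e1 e2
      have hr1 : (r : ℝ) ≠ 0 := by positivity
      have hr2 : (r : ℤ) ≠ 0 := by positivity
      exact Prod.ext (mul_left_cancel₀ hr1 e1) (mul_left_cancel₀ hr2 e2)
    exact sub_left_injective (h1 _ _ h)
  refine ⟨(S.erase v₀).image (fun v => r • (v - v₀)), ?_, ?_⟩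
  · intro h
    obtain ⟨v, hv, hv0⟩ := mem_image.1 h
    have : v = v₀ := by
      apply hinj
      rw [hv0, sub_self, smul_zero]
    exact (mem_erase.1 hv).1 this
  intro t ht
  rw [prod_image (fun v _ w _ h => hinj v w h)]
  set X : V → AddMonoidAlgebra ℂ V := fun v => AddMonoidAlgebra.single v 1 with hX
  have hXm : ∀ v w, X v * X w = X (v + w) := by
    intro v w
    simp only [hX, AddMonoidAlgebra.single_mul_single, mul_one]
  have hXp : ∀ v (k : ℕ), X v ^ k = X (k • v) := by
    intro v k
    simp only [hX, AddMonoidAlgebra.single_pow, one_pow]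
  set E : Polynomial (AddMonoidAlgebra ℂ V) :=
    ∏ v ∈ S.erase v₀, (Polynomial.X - Polynomial.C (X (r • v))) with hE
  have hEv : ∀ v, E.eval (X (r • v)) = ∏ w ∈ S.erase v₀, (X (r • v) - X (r • w)) := by
    intro v
    rw [hE, Polynomial.eval_prod]
    simp
  have hE0 : ∀ v ∈ S, v ≠ v₀ → E.eval (X (r • v)) = 0 := by
    intro v hv hne
    rw [hEv, prod_eq_zero (mem_erase.2 ⟨hne, hv⟩)]
    exact sub_self _
  have hkey : ∑ k ∈ range (E.natDegree + 1), E.coeff k * dil (1 + r * k) G =
      AddMonoidAlgebra.single v₀ (G.coeff v₀) * E.eval (X (r • v₀)) := by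
    have h1 : ∀ k, dil (1 + r * k) G =
        ∑ v ∈ S, AddMonoidAlgebra.single v (G.coeff v) * X (r • v) ^ k := by
      intro k
      rw [spec_dil]
      apply sum_congr rfl
      intro v _
      rw [hXp]
      simp only [hX, AddMonoidAlgebra.single_mul_single, mul_one]
      congr 1
      rw [add_smul, one_smul, mul_comm r k, mul_smul]
    calc ∑ k ∈ range (E.natDegree + 1), E.coeff k * dil (1 + r * k) G
        = ∑ k ∈ range (E.natDegree + 1), ∑ v ∈ S,
          AddMonoidAlgebra.single v (G.coeff v) * (E.coeff k * X (r • v) ^ k) := by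
          apply sum_congr rfl
          intro k _
          rw [h1, mul_sum]
          apply sum_congr rfl
          intro v _
          ring
      _ = ∑ v ∈ S, AddMonoidAlgebra.single v (G.coeff v) * E.eval (X (r • v)) := by
          rw [sum_comm]
          apply sum_congr rfl
          intro v _
          rw [← mul_sum, Polynomial.eval_eq_sum_range]
      _ = _ := by
          rw [sum_eq_single_of_mem v₀ hv₀]
          intro v hv hne
          rw [hE0 v hv hne, mul_zero]
  have hzero : act (AddMonoidAlgebra.single v₀ (G.coeff v₀) * E.eval (X (r • v₀))) t = 0 := by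
    rw [← hkey, spec_sum]
    apply sum_eq_zero
    intro k _
    rw [spec_mul, ht k, spec_fun_zero]
  have hunit : ∏ v ∈ S.erase v₀, (1 - AddMonoidAlgebra.single (r • (v - v₀)) (1 : ℂ)) =
      (AddMonoidAlgebra.single (-v₀) (G.coeff v₀)⁻¹ * ∏ _v ∈ S.erase v₀, X (-(r • v₀))) *
      (AddMonoidAlgebra.single v₀ (G.coeff v₀) * E.eval (X (r • v₀))) := by
    have h1 : AddMonoidAlgebra.single (-v₀) (G.coeff v₀)⁻¹ *
        AddMonoidAlgebra.single v₀ (G.coeff v₀) = (1 : AddMonoidAlgebra ℂ V) := by
      rw [AddMonoidAlgebra.single_mul_single, AddMonoidAlgebra.one_def, neg_add_cancel,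
        inv_mul_cancel₀ hc0]
    have h2 : (∏ _v ∈ S.erase v₀, X (-(r • v₀))) * E.eval (X (r • v₀)) =
        ∏ v ∈ S.erase v₀, (1 - AddMonoidAlgebra.single (r • (v - v₀)) (1 : ℂ)) := by
      rw [hEv, ← prod_mul_distrib]
      apply prod_congr rfl
      intro v _
      rw [mul_sub, hXm, hXm, neg_add_cancel]
      have e1 : X 0 = 1 := rfl
      have e2 : -(r • v₀) + r • v = r • (v - v₀) := by
        rw [smul_sub]
        abel
      rw [e1, e2]
    rw [← h2]
    linear_combination (-(∏ _v ∈ S.erase v₀, X (-(r • v₀))) * E.eval (X (r • v₀))) * h1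
  rw [hunit, spec_mul, hzero, spec_fun_zero]

end Pool.Agent.MLB
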