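import Pool.Agent.MLB.Targets

set_option autoImplicit false

namespace Pool.Agent.MLB

/-- Conclusion from a window and a common period of the block. -/
lemma star_fin (hC : T_COM) (hG : T_GLUE) (h : ℕ) (A : ℕ → Finset (ℝ × ℝ)) (hL : Layers h A)
    (H : AddMonoidAlgebra ℂ ℝ) (hH : H ≠ 0) (T : ℤ → Set ℝ) (hT : Cov h A T)
    (hA : ∀ n, Ann H (ind (T n))) (n : ℤ) (K : ℕ) (θ : ℝ) (hK : 0 < K) (b : ℤ)
    (hb : ∀ r : ℕ, r < K → n + (r : ℤ) ≤ b)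
    (hw : ∀ i : ℕ, i + 1 < h → ∀ x, x + θ ∈ T (n + K + i) ↔ x ∈ T (n + i))
    (hcom : ∀ k, n < k → k ≤ b → (∃ j, n ≤ j ∧ j ≤ k - h ∧ (T j).Nonempty) →
        ∃ j, k - h < j ∧ j < k ∧ (T j).Nonempty) :
    ∃ (S : ℤ → Set ℝ) (P θ : ℝ) (K : ℕ), Cov h A S ∧ Per S P θ K := by
  obtain ⟨P, hP, hper⟩ := hC h A hL H hH T hT hA n b hcom
  obtain ⟨S, hS, hSP⟩ := hG h A hL.pos T hT n K θ P hK hP hw (by
    intro r hr x
    exact hper (n + r) (by omega) (hb r hr) x)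
  exact ⟨S, P, θ, K, hS, hSP⟩

theorem p_STAR : T_HAN → T_WIN → T_COM → T_GLUE → T_STAR := by
  intro hHan hWin hCom hGlue h A h2 hL hS T hT
  obtain ⟨H, hH, hHT⟩ := hHan h A hL hS
  have hA := hHT T hT
  by_cases hF : ∃ n₀ n₁ : ℤ, n₀ < n₁ ∧ (∀ j, n₀ - h < j → j < n₀ → ¬ (T j).Nonempty) ∧
      (∀ j, n₁ - h < j → j < n₁ → ¬ (T j).Nonempty)
  · obtain ⟨n₀, n₁', h01', hF0, hF1'⟩ := hF
    obtain ⟨n₁, ⟨h01, hF1⟩, hmin⟩ := Int.exists_least_of_bdd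
      (P := fun m : ℤ => n₀ < m ∧ ∀ j, m - h < j → j < m → ¬ (T j).Nonempty)
      ⟨n₀, fun z hz => hz.1.le⟩ ⟨n₁', h01', hF1'⟩
    have hK : 0 < (n₁ - n₀).toNat := by omega
    have hKc : (((n₁ - n₀).toNat : ℕ) : ℤ) = n₁ - n₀ := by omega
    refine star_fin hCom hGlue h A hL H hH T hT hA (n₀ - h + 1) (n₁ - n₀).toNat 0 hK (n₁ - h)
      ?_ ?_ ?_
    · intro r hr
      omega
    · intro i hi x
      have e1 : ¬ (T (n₀ - h + 1 + i)).Nonempty := hF0 _ (by omega) (by omega)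
      have e2 : ¬ (T (n₀ - h + 1 + ((n₁ - n₀).toNat : ℤ) + i)).Nonempty :=
        hF1 _ (by omega) (by omega)
      constructor
      · intro hx
        exact absurd ⟨_, hx⟩ e2
      · intro hx
        exact absurd ⟨_, hx⟩ e1
    · rintro k hk1 hk2 ⟨j, hj1, hj2, hj3⟩
      by_contra hcon
      have hj0 : n₀ ≤ j := by
        by_contra hlt
        exact hF0 j (by omega) (by omega) hj3
      have hkf : ∀ j, k - h < j → j < k → ¬ (T j).Nonempty := by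
        intro j' hj1' hj2' hne
        exact hcon ⟨j', hj1', hj2', hne⟩
      have := hmin k ⟨by omega, hkf⟩
      omega
  · have hex : ∃ n₁ : ℤ, ∀ k, n₁ ≤ k → ∃ j, k - h < j ∧ j < k ∧ (T j).Nonempty := by
      by_cases h1 : ∃ n₀ : ℤ, ∀ j, n₀ - h < j → j < n₀ → ¬ (T j).Nonempty
      · obtain ⟨n₀, hn₀⟩ := h1
        refine ⟨n₀ + 1, fun k hk => ?_⟩
        by_contra hcon
        refine hF ⟨n₀, k, by omega, hn₀, ?_⟩
        intro j hj1 hj2 hne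
        exact hcon ⟨j, hj1, hj2, hne⟩
      · refine ⟨0, fun k _ => ?_⟩
        by_contra hcon
        refine h1 ⟨k, ?_⟩
        intro j hj1 hj2 hne
        exact hcon ⟨j, hj1, hj2, hne⟩
    obtain ⟨n₁, hn₁⟩ := hex
    obtain ⟨n, K, θ, hn, hK, hw⟩ := hWin h A h2 hL H hH T hT hA n₁ (by
      intro n hn
      obtain ⟨j, hj1, hj2, hj3⟩ := hn₁ (n + h - 1) (by omega)
      exact ⟨j, by omega, by omega, hj3⟩)
    refine star_fin hCom hGlue h A hL H hH T hT hA n K θ hK (n + K) ?_ hw ?_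
    · intro r hr
      omega
    · intro k hk1 _ _
      exact hn₁ k (by omega)

end Pool.Agent.MLB
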