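import Pool.Agent.MLB.Targets

set_option autoImplicit false

/-!
# MLB, target TRA: all layers are translates of the layer `0`
-/

namespace Pool.Agent.MLB

open Finset

/-- The convolution sum of `Ann`. -/
noncomputable def tra_conv (s : ℝ → ℂ) (x : ℝ) (f : AddMonoidAlgebra ℂ ℝ) : ℂ :=
  f.coeff.sum fun e c => c * s (x - e)

theorem tra_add (s : ℝ → ℂ) (x : ℝ) (f g : AddMonoidAlgebra ℂ ℝ) :
    tra_conv s x (f + g) = tra_conv s x f + tra_conv s x g := by
  classical
  unfold tra_conv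
  rw [AddMonoidAlgebra.coeff_add]
  apply Finsupp.sum_add_index'
  · intro a; simp
  · intro a b c; ring

theorem tra_single (s : ℝ → ℂ) (x e : ℝ) (c : ℂ) :
    tra_conv s x (AddMonoidAlgebra.single e c) = c * s (x - e) := by
  classical
  unfold tra_conv
  rw [AddMonoidAlgebra.coeff_single]
  rw [Finsupp.sum_single_index]
  simp

theorem tra_zero (s : ℝ → ℂ) (x : ℝ) : tra_conv s x 0 = 0 := by
  have h := tra_add s x 0 0
  simp only [add_zero] at h
  exact left_eq_add.mp h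

theorem tra_sub (s : ℝ → ℂ) (x : ℝ) (f g : AddMonoidAlgebra ℂ ℝ) :
    tra_conv s x (f - g) = tra_conv s x f - tra_conv s x g := by
  have h := tra_add s x (f - g) g
  rw [sub_add_cancel] at h
  rw [h]; ring

theorem tra_sum (s : ℝ → ℂ) (x : ℝ) (I : Finset (ℝ × ℝ)) (F : ℝ × ℝ → AddMonoidAlgebra ℂ ℝ) :
    tra_conv s x (∑ p ∈ I, F p) = ∑ p ∈ I, tra_conv s x (F p) := by
  classical
  induction I using Finset.induction_on with
  | empty => simp [tra_zero]
  | insert a s ha ih => rw [Finset.sum_insert ha, Finset.sum_insert ha, tra_add, ih]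

theorem tra_lay (s : ℝ → ℂ) (x : ℝ) (I : Finset (ℝ × ℝ)) :
    tra_conv s x (lay I) = ∑ p ∈ I, s (x - p.1) - ∑ p ∈ I, s (x - p.2) := by
  unfold lay
  rw [tra_sum, ← Finset.sum_sub_distrib]
  refine Finset.sum_congr rfl fun p _ => ?_
  rw [tra_sub, tra_single, tra_single, one_mul, one_mul]

theorem tra_ii_ind (X : Set ℝ) (x : ℝ) : ((ii X x : ℤ) : ℂ) = ind X x := by
  classical
  unfold ii ind
  by_cases h : x ∈ X
  · rw [if_pos h, if_pos h]; norm_num
  · rw [if_neg h, if_neg h]; norm_num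

theorem tra_layers {h : ℕ} {A : ℕ → Finset (ℝ × ℝ)} (hL : Layers h A) : Layers 1 A :=
  ⟨one_pos, fun i hi => hL.ne i (lt_of_lt_of_le hi hL.pos),
    fun i hi => hL.lt i (lt_of_lt_of_le hi hL.pos),
    fun i hi => hL.sep i (lt_of_lt_of_le hi hL.pos)⟩

theorem p_TRA : T_JUMP → T_FLC → T_PER → T_LAY → T_TRA := by
  classical
  intro hJ hF hP hLay h A hL hTr T hT
  obtain ⟨γ, hγ⟩ := hTr
  have hpos : 0 < h := hL.pos
  set Y : Set ℝ := {x | ∃ i, i < h ∧ x - γ i ∈ T (-(i : ℤ))} with hYdef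
  -- every point is covered exactly once by the translates of the layer 0
  have hY : ∀ u : ℝ, ∃ s, (s ∈ Y ∧ u - s ∈ hop (A 0)) ∧
      ∀ s', s' ∈ Y → u - s' ∈ hop (A 0) → s' = s := by
    intro u
    obtain ⟨q, ⟨hq1, hq2, hq3⟩, hq⟩ := hT 0 u
    have hq2' : q.2 ∈ T (-(q.1 : ℤ)) := by
      rw [zero_sub] at hq2; exact hq2
    refine ⟨q.2 + γ q.1, ⟨⟨q.1, hq1, ?_⟩, ?_⟩, ?_⟩
    · rw [add_sub_cancel_right]; exact hq2'
    · have := (hγ q.1 hq1 (u - q.2)).1 hq3
      rw [sub_sub] at this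
      exact this
    · rintro s' ⟨i, hi, hs⟩ hu
      have h1 := hq (i, s' - γ i) ⟨hi, by
        change s' - γ i ∈ T (0 - (i : ℤ))
        rw [zero_sub]; exact hs, by
        change u - (s' - γ i) ∈ hop (A i)
        rw [hγ i hi]
        have h2 : u - (s' - γ i) - γ i = u - s' := by ring
        rw [h2]; exact hu⟩
      have h3 : i = q.1 := congrArg Prod.fst h1
      have h4 : s' - γ i = q.2 := congrArg Prod.snd h1
      rw [← h3, ← h4]; ring
  have hcov1 : Cov 1 A (fun _ => Y) := by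
    intro n u
    obtain ⟨s, ⟨hs1, hs2⟩, hs3⟩ := hY u
    refine ⟨(0, s), ⟨one_pos, hs1, hs2⟩, ?_⟩
    rintro ⟨i, s'⟩ ⟨hi, hs', hu'⟩
    have hi0 : i = 0 := Nat.lt_one_iff.1 hi
    subst hi0
    rw [hs3 s' hs' hu']
  have hL1 := tra_layers hL
  -- the jump equation
  have hann : Ann (lay (A 0)) (ind Y) := by
    intro x
    have h1 := hJ 1 A hL1 (fun _ => Y) hcov1 0 x
    rw [Finset.sum_range_one, Finset.sum_range_one] at h1
    have h2 : tra_conv (ind Y) x (lay (A 0)) = 0 := by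
      rw [tra_lay]
      have h3 : ∀ f : ℝ × ℝ → ℝ, ((∑ p ∈ A 0, ii Y (x - f p) : ℤ) : ℂ) =
          ∑ p ∈ A 0, ind Y (x - f p) := by
        intro f
        rw [Int.cast_sum]
        exact Finset.sum_congr rfl fun p _ => tra_ii_ind Y _
      rw [← h3 Prod.fst, ← h3 Prod.snd, h1, sub_self]
    exact h2
  have hne : lay (A 0) ≠ 0 := by
    intro h0
    obtain ⟨p, hp⟩ := hL.ne 0 hpos
    have h1 := hLay (A 0) (hL.lt 0 hpos) (hL.sep 0 hpos) p.1
    rw [h0] at h1
    have h2 : p.1 ∈ hop (A 0) := ⟨p, hp, le_refl _, hL.lt 0 hpos p hp⟩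
    have h3 : cum p.1 0 = 0 := by
      unfold cum
      simp
    rw [h3] at h1
    unfold ind at h1
    rw [if_pos h2] at h1
    exact zero_ne_one h1
  have hfin : FinD Y Y := by
    intro L
    obtain ⟨D, hD⟩ := hF 1 A hL1 L
    refine (D.finite_toSet).subset ?_
    rintro d ⟨x, hx, y, hy, rfl, hd⟩
    exact hD (fun _ => Y) hcov1 0 0 (by simp) x hx y hy hd
  obtain ⟨P, hP0, hPY⟩ := hP (lay (A 0)) hne Unit (fun _ => Y) (fun _ => hann)
    (fun _ _ => hfin)
  refine ⟨fun n => if (h : ℤ) ∣ n then Y else ∅, P, 0, h, ?_, hP0, hpos, ?_, ?_⟩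
  · intro n u
    have hh0 : (0 : ℤ) < (h : ℤ) := by exact_mod_cast hpos
    set i : ℕ := (n % (h : ℤ)).toNat with hi
    have hmod0 : 0 ≤ n % (h : ℤ) := Int.emod_nonneg _ hh0.ne'
    have hi1 : (i : ℤ) = n % (h : ℤ) := Int.toNat_of_nonneg hmod0
    have hilt : i < h := by
      have := Int.emod_lt_of_pos n hh0
      rw [← hi1] at this
      exact_mod_cast this
    have hdiv : (h : ℤ) ∣ n - (i : ℤ) := by
      rw [hi1]; exact Int.dvd_self_sub_emod
    obtain ⟨s, ⟨hs1, hs2⟩, hs3⟩ := hY (u - γ i)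
    refine ⟨(i, s), ⟨hilt, ?_, ?_⟩, ?_⟩
    · change s ∈ (if (h : ℤ) ∣ n - (i : ℤ) then Y else ∅)
      rw [if_pos hdiv]; exact hs1
    · change u - s ∈ hop (A i)
      rw [hγ i hilt]
      have h2 : u - s - γ i = u - γ i - s := by ring
      rw [h2]; exact hs2
    · rintro ⟨i', s'⟩ ⟨hi', hs', hu'⟩
      change i' < h at hi'
      change s' ∈ (if (h : ℤ) ∣ n - (i' : ℤ) then Y else ∅) at hs'
      change u - s' ∈ hop (A i') at hu'
      have hdiv' : (h : ℤ) ∣ n - (i' : ℤ) := by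
        by_contra hcon
        rw [if_neg hcon] at hs'
        exact hs'
      rw [if_pos hdiv'] at hs'
      have hii : i' = i := by
        have h1 : (h : ℤ) ∣ (i' : ℤ) - (i : ℤ) := by
          have h2 := dvd_sub hdiv hdiv'
          have h3 : n - (i : ℤ) - (n - (i' : ℤ)) = (i' : ℤ) - (i : ℤ) := by ring
          rw [h3] at h2; exact h2
        have h4 : (i' : ℤ) - (i : ℤ) = 0 := by
          apply Int.eq_zero_of_abs_lt_dvd h1
          rw [abs_lt]
          constructor <;> omega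
        omega
      rw [hii] at hu'
      have h5 : u - γ i - s' ∈ hop (A 0) := by
        have h6 := (hγ i hilt _).1 hu'
        have h7 : u - s' - γ i = u - γ i - s' := by ring
        rw [h7] at h6; exact h6
      rw [hii, hs3 s' hs' h5]
  · intro n x
    by_cases hd : (h : ℤ) ∣ n
    · simp only [if_pos hd]
      exact hPY () x
    · simp only [if_neg hd]
      exact Iff.rfl
  · intro n x
    have hiff : ((h : ℤ) ∣ n + (h : ℤ)) ↔ (h : ℤ) ∣ n := dvd_add_self_right
    rw [add_zero]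
    by_cases hd : (h : ℤ) ∣ n
    · simp only [if_pos hd, if_pos (hiff.2 hd)]
    · simp only [if_neg hd, if_neg (fun hc => hd (hiff.1 hc))]

end Pool.Agent.MLB
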