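import Pool.Agent.MLB.Targets

set_option autoImplicit false

/-!
# MLB: proof of the target TWO (helper88)
-/

namespace Pool.Agent.MLB

open Finset

theorem two_ind_cases (X : Set ℝ) (x : ℝ) :
    (x ∈ X ∧ ind X x = 1) ∨ (x ∉ X ∧ ind X x = 0) := by
  classical
  unfold ind
  by_cases h : x ∈ X
  · exact Or.inl ⟨h, if_pos h⟩
  · exact Or.inr ⟨h, if_neg h⟩

theorem two_mem (X Y : Set ℝ) (x y : ℝ) (h : ind X x = ind Y y) : x ∈ X ↔ y ∈ Y := by
  rcases two_ind_cases X x with h1 | h1 <;> rcases two_ind_cases Y y with h2 | h2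
  · exact ⟨fun _ => h2.1, fun _ => h1.1⟩
  · rw [h1.2, h2.2] at h
    exact absurd h one_ne_zero
  · rw [h1.2, h2.2] at h
    exact absurd h zero_ne_one
  · exact ⟨fun h3 => absurd h3 h1.1, fun h3 => absurd h3 h2.1⟩

theorem p_TWO : T_TWO := by
  intro h A hh hA
  have hpos := hA.pos
  have hcase : h = 1 ∨ h = 2 := by omega
  rcases hcase with rfl | rfl
  · left
    refine ⟨fun _ => 0, fun i hi x => ?_⟩
    have hi0 : i = 0 := by omega
    rw [hi0, sub_zero]
  · by_cases hs : Star 2 A
    · exact Or.inr hs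
    left
    unfold Star at hs
    push Not at hs
    obtain ⟨γ, ζ, _, hz⟩ := hs
    have hsum : ∀ x : ℝ, ind (hop (A 0)) x + ζ * ind (hop (A 1)) (x - γ) = 0 := by
      intro x
      have h1 := hz x
      rw [Finset.sum_range_succ, Finset.sum_range_one] at h1
      simpa using h1
    obtain ⟨p, hp⟩ := hA.ne 0 (by omega)
    have hx0 : p.1 ∈ hop (A 0) := ⟨p, hp, le_rfl, hA.lt 0 (by omega) p hp⟩
    have hζ : ζ = -1 := by
      have h1 := hsum p.1
      rcases two_ind_cases (hop (A 0)) p.1 with h2 | h2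
      · rw [h2.2] at h1
        rcases two_ind_cases (hop (A 1)) (p.1 - γ) with h3 | h3
        · rw [h3.2, mul_one] at h1
          linear_combination h1
        · rw [h3.2, mul_zero, add_zero] at h1
          exact absurd h1 one_ne_zero
      · exact absurd hx0 h2.1
    have heq : ∀ x : ℝ, ind (hop (A 0)) x = ind (hop (A 1)) (x - γ) := by
      intro x
      have h1 := hsum x
      rw [hζ] at h1
      linear_combination h1
    refine ⟨fun i => if i = 0 then 0 else -γ, fun i hi x => ?_⟩
    have hi2 : i = 0 ∨ i = 1 := by omega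
    rcases hi2 with rfl | rfl
    · show x ∈ hop (A 0) ↔ x - (if (0 : ℕ) = 0 then 0 else -γ) ∈ hop (A 0)
      rw [if_pos rfl, sub_zero]
    · show x ∈ hop (A 1) ↔ x - (if (1 : ℕ) = 0 then 0 else -γ) ∈ hop (A 0)
      rw [if_neg one_ne_zero]
      have h1 := heq (x - -γ)
      have h2 : x - -γ - γ = x := by ring
      rw [h2] at h1
      exact (two_mem _ _ _ _ h1).symm

end Pool.Agent.MLB
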