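import Pool.Agent.MLB.Targets

set_option autoImplicit false

namespace Pool.Agent.MLB

open Finset

theorem win_ind_mem (X : Set ℝ) (x : ℝ) (h : x ∈ X) : ind X x = 1 := by
  classical
  unfold ind
  rw [if_pos h]

theorem win_ind_not (X : Set ℝ) (x : ℝ) (h : x ∉ X) : ind X x = 0 := by
  classical
  unfold ind
  rw [if_neg h]

theorem win_ind_eq (X Y : Set ℝ) (x y : ℝ) : ind X x - ind Y y = 0 ↔ (x ∈ X ↔ y ∈ Y) := by
  by_cases hx : x ∈ X
  · by_cases hy : y ∈ Y
    · rw [win_ind_mem X x hx, win_ind_mem Y y hy]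
      simp [hx, hy]
    · rw [win_ind_mem X x hx, win_ind_not Y y hy]
      simp [hx, hy]
  · by_cases hy : y ∈ Y
    · rw [win_ind_not X x hx, win_ind_mem Y y hy]
      simp [hx, hy]
    · rw [win_ind_not X x hx, win_ind_not Y y hy]
      simp [hx, hy]

theorem win_ann (H : AddMonoidAlgebra ℂ ℝ) (X Y : Set ℝ) (hX : Ann H (ind X)) (hY : Ann H (ind Y))
    (θ : ℝ) : Ann H (fun x => ind Y (x + θ) - ind X x) := by
  intro x
  have h1 := hX x
  have h2 := hY (x + θ)
  have h3 : (H.coeff.sum fun e c => c * (ind Y (x - e + θ) - ind X (x - e))) =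
      (H.coeff.sum fun e c => c * ind Y (x + θ - e)) -
      (H.coeff.sum fun e c => c * ind X (x - e)) := by
    unfold Finsupp.sum
    rw [← Finset.sum_sub_distrib]
    apply Finset.sum_congr rfl
    intro e _
    have : x - e + θ = x + θ - e := by ring
    show H.coeff e * (ind Y (x - e + θ) - ind X (x - e)) =
      H.coeff e * ind Y (x + θ - e) - H.coeff e * ind X (x - e)
    rw [this]
    ring
  show (H.coeff.sum fun e c => c * (ind Y (x - e + θ) - ind X (x - e))) = 0
  rw [h3, h1, h2, sub_zero]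

theorem win_fin (hF : T_FLC) (h : ℕ) (A : ℕ → Finset (ℝ × ℝ)) (hL : Layers h A) (T : ℤ → Set ℝ)
    (hC : Cov h A T) (m : ℤ) (a b : ℝ) : {x | x ∈ T m ∧ a ≤ x ∧ x ≤ b}.Finite := by
  by_cases hne : ∃ x₀, x₀ ∈ T m ∧ a ≤ x₀ ∧ x₀ ≤ b
  · obtain ⟨x₀, hx₀, h1, h2⟩ := hne
    obtain ⟨D, hD⟩ := hF h A hL (b - a)
    apply Set.Finite.subset ((D.finite_toSet).image (fun d => x₀ + d))
    rintro x ⟨hx, hxa, hxb⟩
    refine ⟨x - x₀, ?_, by ring⟩
    have hh : |m - m| < (h : ℤ) := by
      have := hL.pos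
      simp
      omega
    exact hD T hC m m hh x hx x₀ hx₀ (by rw [abs_le]; constructor <;> linarith)
  · have : {x | x ∈ T m ∧ a ≤ x ∧ x ≤ b} = ∅ := by
      ext x
      constructor
      · intro hx
        exact absurd ⟨x, hx⟩ hne
      · intro hx
        exact absurd hx (Set.notMem_empty x)
    rw [this]
    exact Set.finite_empty

theorem p_WIN : T_FLC → T_DET → T_WIN := by
  classical
  intro hF hDet h A h2 hL H hH T hC hAnn n₀ hne
  obtain ⟨W, hW, hdet⟩ := hDet H hH
  obtain ⟨D, hD⟩ := hF h A hL W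
  have hne' : ∀ k : ℕ, ∃ (j : ℤ) (v : ℝ), n₀ + k ≤ j ∧ j < n₀ + k + h - 1 ∧ v ∈ T j := by
    intro k
    obtain ⟨j, hj1, hj2, v, hv⟩ := hne (n₀ + k) (by omega)
    exact ⟨j, v, hj1, hj2, hv⟩
  choose j v hj1 hj2 hv using hne'
  let pat : ℕ → Finset (ℝ × ℕ) := fun k =>
    (D ×ˢ range h).filter (fun q => v k + q.1 ∈ T (n₀ + k + q.2))
  have hmem : ∀ (k i : ℕ) (d : ℝ), (d, i) ∈ pat k ↔ (d ∈ D ∧ i < h) ∧ v k + d ∈ T (n₀ + k + i) := by
    intro k i d
    simp [pat]
  have hpig : ∃ k k' : ℕ, k < k' ∧ pat k = pat k' := by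
    have hmaps : Set.MapsTo pat Set.univ (((D ×ˢ range h).powerset : Finset (Finset (ℝ × ℕ))) :
        Set (Finset (ℝ × ℕ))) := by
      intro k _
      have : pat k ∈ (D ×ˢ range h).powerset := Finset.mem_powerset.mpr (Finset.filter_subset _ _)
      exact_mod_cast this
    obtain ⟨k, _, k', _, hne2, heq⟩ := Set.infinite_univ.exists_ne_map_eq_of_mapsTo hmaps
      (Finset.finite_toSet _)
    rcases lt_or_gt_of_ne hne2 with hlt | hlt
    · exact ⟨k, k', hlt, heq⟩
    · exact ⟨k', k, hlt, heq.symm⟩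
  obtain ⟨k, k', hlt, heq⟩ := hpig
  refine ⟨n₀ + k, k' - k, v k' - v k, by omega, by omega, ?_⟩
  intro i hi
  have hcast : n₀ + (k : ℤ) + ((k' - k : ℕ) : ℤ) + (i : ℤ) = n₀ + (k' : ℤ) + (i : ℤ) := by
    rw [Nat.cast_sub hlt.le]
    ring
  rw [hcast]
  have hdiff : ∀ l : ℕ, |n₀ + (l : ℤ) + (i : ℤ) - j l| < (h : ℤ) := by
    intro l
    have a1 := hj1 l
    have a2 := hj2 l
    rw [abs_lt]
    constructor <;> omega
  -- the function
  have hs := hdet (fun x => ind (T (n₀ + k' + i)) (x + (v k' - v k)) - ind (T (n₀ + k + i)) x)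
    (by
      intro a b
      have f1 := win_fin hF h A hL T hC (n₀ + k + i) a b
      have f2 := win_fin hF h A hL T hC (n₀ + k' + i) (a + (v k' - v k)) (b + (v k' - v k))
      have f3 := f2.image (fun x => x - (v k' - v k))
      apply Set.Finite.subset (f1.union f3)
      rintro x ⟨hx, hxa, hxb⟩
      by_cases hx1 : x ∈ T (n₀ + k + i)
      · left
        exact ⟨hx1, hxa, hxb⟩
      · by_cases hx2 : x + (v k' - v k) ∈ T (n₀ + k' + i)
        · right
          refine ⟨x + (v k' - v k), ⟨hx2, by linarith, by linarith⟩, by ring⟩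
        · exfalso
          apply hx
          show ind (T (n₀ + k' + i)) (x + (v k' - v k)) - ind (T (n₀ + k + i)) x = 0
          rw [win_ind_eq]
          exact ⟨fun hh => absurd hh hx2, fun hh => absurd hh hx1⟩)
    (win_ann H _ _ (hAnn _) (hAnn _) _) (v k)
    (by
      intro x hx1 hx2
      show ind (T (n₀ + k' + i)) (x + (v k' - v k)) - ind (T (n₀ + k + i)) x = 0
      rw [win_ind_eq]
      constructor
      · intro hx
        have hd : x + (v k' - v k) - v k' ∈ D := hD T hC _ _ (hdiff k') _ hx _ (hv k')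
          (by rw [abs_le]; constructor <;> linarith)
        have e1 : x + (v k' - v k) - v k' = x - v k := by ring
        rw [e1] at hd
        have m1 : (x - v k, i) ∈ pat k' := by
          rw [hmem]
          refine ⟨⟨hd, by omega⟩, ?_⟩
          have e2 : v k' + (x - v k) = x + (v k' - v k) := by ring
          rw [e2]
          exact hx
        rw [← heq, hmem] at m1
        have e3 : v k + (x - v k) = x := by ring
        rw [e3] at m1
        exact m1.2
      · intro hx
        have hd : x - v k ∈ D := hD T hC _ _ (hdiff k) _ hx _ (hv k)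
          (by rw [abs_le]; constructor <;> linarith)
        have m1 : (x - v k, i) ∈ pat k := by
          rw [hmem]
          refine ⟨⟨hd, by omega⟩, ?_⟩
          have e3 : v k + (x - v k) = x := by ring
          rw [e3]
          exact hx
        rw [heq, hmem] at m1
        have e2 : v k' + (x - v k) = x + (v k' - v k) := by ring
        rw [e2] at m1
        exact m1.2)
  intro x
  have := hs x
  rwa [win_ind_eq] at this

end Pool.Agent.MLB
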