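import Pool.Agent.MLB.Body
import Pool.Agent.MLB.P_PR
import Pool.Agent.MLB.P_RP
import Pool.Agent.MLB.P_JUMP
import Pool.Agent.MLB.P_DIL
import Pool.Agent.MLB.P_SPEC
import Pool.Agent.MLB.P_NORM
import Pool.Agent.MLB.P_ELIM
import Pool.Agent.MLB.P_LAY
import Pool.Agent.MLB.P_SG
import Pool.Agent.MLB.P_HAN
import Pool.Agent.MLB.P_FLC
import Pool.Agent.MLB.P_DET
import Pool.Agent.MLB.P_MEET
import Pool.Agent.MLB.P_PER
import Pool.Agent.MLB.P_WIN
import Pool.Agent.MLB.P_COM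
import Pool.Agent.MLB.P_GLUE
import Pool.Agent.MLB.P_STAR
import Pool.Agent.MLB.P_TRA
import Pool.Agent.MLB.P_TWO

set_option autoImplicit false

namespace Pool.Agent.MLB

theorem all_han : T_HAN :=
  p_HAN p_JUMP p_DIL (p_ELIM p_SPEC p_NORM) (p_SG p_LAY)

theorem all_meet : T_MEET := p_MEET p_DET

theorem all_per : T_PER := p_PER p_DET all_meet

theorem all_star : T_STAR :=
  p_STAR all_han (p_WIN p_FLC p_DET) (p_COM p_FLC all_meet all_per) p_GLUE

theorem all_tra : T_TRA := p_TRA p_JUMP p_FLC all_per p_LAY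

theorem rows (h : ℕ) (A : ℕ → Finset (ℝ × ℝ)) (hA : Layers h A)
    (hs : h ≤ 2 ∨ AllTr h A ∨ Star h A) (T : ℤ → Set ℝ) (hT : Cov h A T) :
    ∃ (S : ℤ → Set ℝ) (P θ : ℝ) (K : ℕ), Cov h A S ∧ Per S P θ K := by
  have h1 : AllTr h A ∨ Star h A := by
    rcases hs with hs | hs
    · exact p_TWO h A hs hA
    · exact hs
  rcases h1 with h1 | h1
  · exact all_tra h A hA h1 T hT
  · rcases Nat.lt_or_ge h 2 with h2 | h2
    · refine all_tra h A hA ⟨fun _ => 0, ?_⟩ T hT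
      intro i hi x
      have : i = 0 := by omega
      subst this
      simp
    · exact all_star h A h2 hA h1 T hT

theorem main (h m : ℕ) (A : ℕ → Finset (ℝ × ℝ)) (hm : 0 < m) (hA : Layers h A)
    (hs : h ≤ 2 ∨ AllTr h A ∨ Star h A) (ht : ∃ T, Tiling (body h m A) T) :
    ∃ T, Tiling (body h m A) T ∧ Periodic2 T := by
  obtain ⟨T, hT⟩ := ht
  obtain ⟨S, hS⟩ := p_PR h m A hm hA T hT
  obtain ⟨S', P, θ, K, hS', hP⟩ := rows h A hA hs S hS
  exact p_RP h m A hm hA S' P θ K hS' hP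

end Pool.Agent.MLB
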