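import Pool.Agent.MLB.Targets

set_option autoImplicit false

namespace Pool.Agent.MLB

theorem com_symm {X Y : Set ℝ} (hXY : FinD X Y) : FinD Y X := by
  intro L
  have h1 := (hXY L).image (fun d => -d)
  refine h1.subset ?_
  rintro d ⟨y, hy, x, hx, rfl, hL⟩
  refine ⟨x - y, ⟨x, hx, y, hy, rfl, ?_⟩, by ring⟩
  rwa [abs_sub_comm]

theorem com_trans {X Y Z : Set ℝ} {W : ℝ} (hXZ : FinD X Z) (hZY : FinD Z Y) (hM : Meets W Z) :
    FinD X Y := by
  intro L
  have h1 := Set.Finite.image2 (fun p q => p + q) (hXZ W) (hZY (L + W))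
  refine h1.subset ?_
  rintro d ⟨x, hx, y, hy, rfl, hL⟩
  obtain ⟨z, hz, hz1, hz2⟩ := hM x
  have hL' := abs_le.mp hL
  refine ⟨x - z, ⟨x, hx, z, hz, rfl, ?_⟩, z - y, ⟨z, hz, y, hy, rfl, ?_⟩, by ring⟩
  · rw [abs_le]
    constructor <;> linarith
  · rw [abs_le]
    constructor <;> linarith [hL'.1, hL'.2]

theorem p_COM : T_FLC → T_MEET → T_PER → T_COM := by
  intro hFLC hMEET hPER h A hL H hH T hCov hAnn a b hgap
  have hpos : (0 : ℤ) < h := by exact_mod_cast hL.pos
  have near : ∀ j j' : ℤ, |j - j'| < h → FinD (T j) (T j') := by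
    intro j j' hjj L
    obtain ⟨D, hD⟩ := hFLC h A hL L
    refine D.finite_toSet.subset ?_
    rintro d ⟨x, hx, y, hy, rfl, hd⟩
    exact hD T hCov j j' hjj x hx y hy hd
  obtain ⟨W, hW, hM⟩ := hMEET H hH
  have key : ∀ N : ℕ, ∀ j j' : ℤ, a ≤ j → j ≤ j' → j' ≤ b → j' - j ≤ N →
      FinD (T j) (T j') := by
    intro N
    induction N with
    | zero =>
      intro j j' _ h2 _ h4
      apply near
      have h5 : j - j' = 0 := by
        have h6 : j' - j ≤ 0 := by simpa using h4
        omega
      rw [h5]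
      simpa using hpos
    | succ N ih =>
      intro j j' h1 h2 h3 h4
      by_cases hlt : j' - j < h
      · apply near
        rw [abs_sub_comm, abs_of_nonneg (by omega)]
        exact hlt
      · rcases Set.eq_empty_or_nonempty (T j) with he | hne
        · intro L
          rw [he]
          refine Set.finite_empty.subset ?_
          rintro d ⟨x, hx, _⟩
          exact hx.elim
        · obtain ⟨j₁, h5, h6, h7⟩ := hgap j' (by omega) h3 ⟨j, h1, by omega, hne⟩
          have h8 : FinD (T j) (T j₁) := by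
            apply ih j j₁ h1 (by omega) (by omega)
            push_cast at h4
            omega
          have h9 : FinD (T j₁) (T j') := by
            apply near
            rw [abs_sub_comm, abs_of_nonneg (by omega)]
            omega
          have h10 : FinD (T j₁) (T j₁) := by
            apply near
            simpa using hpos
          exact com_trans h8 h9 (hM (T j₁) h10 (hAnn j₁) h7)
  have all : ∀ j j' : ℤ, a ≤ j → j ≤ b → a ≤ j' → j' ≤ b → FinD (T j) (T j') := by
    intro j j' h1 h2 h3 h4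
    rcases le_total j j' with h5 | h5
    · exact key (j' - j).toNat j j' h1 h5 h4 (by omega)
    · exact com_symm (key (j - j').toNat j' j h3 h5 h2 (by omega))
  obtain ⟨P, hP, hper⟩ := hPER H hH {j // j ∈ Finset.Icc a b} (fun j => T j.1)
    (fun i => hAnn i.1) (fun i j => all i.1 j.1 (Finset.mem_Icc.mp i.2).1
      (Finset.mem_Icc.mp i.2).2 (Finset.mem_Icc.mp j.2).1 (Finset.mem_Icc.mp j.2).2)
  refine ⟨P, hP, fun j h1 h2 x => ?_⟩
  exact hper ⟨j, Finset.mem_Icc.mpr ⟨h1, h2⟩⟩ x

end Pool.Agent.MLB
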