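import Pool.Agent.MLB.Defs

set_option autoImplicit false

namespace Pool.Agent.MLB

open Finset

/-- **T_PR** (planar to rows, about 180 lines).
Proof. Cells: for `i < h`, `p ∈ A i`: closed cell `K = [p.1,p.2] × [m i, m i + 1]`, half-open cell
`Q = [p.1,p.2) × [m i, m i + 1)`, open cell `O`. `body` is the union of the `K`; `O + t` is an open
subset of `C + t`.
(H1) If `z - t ∈ Q_j`, `z - t' ∈ Q_j'`, `t, t' ∈ T`, then `t = t'` and the two cells have the
same `i`: for small `ε > 0` the point `z + (ε,ε)` lies in `O_j + t` and in `O_j' + t'`, so the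
interiors of `C + t` and `C + t'` meet; if `t = t'` then the height intervals `[m i, m i + 1)`,
`[m i', m i' + 1)` meet, `m ≥ 1`, so `i = i'`.
(H2) Let `p₀ ∈ A 0`, `w = p₀.2 - p₀.1 > 0`. The map `(x,y) ↦ (⌊x / w⌋, ⌊y⌋)` is injective on `T`:
two elements with the same image have `|x - x'| < w`, `|y - y'| < 1`, so the translates of the
open cell of `p₀` meet. Hence `T` has finitely many elements in every bounded box.
(H3) Every `z` lies in a half-open cell of some `t ∈ T`: `z_k = z + (1/(k+1), 1/(k+1))` lies in a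
closed cell of some `t_k ∈ T`; the `t_k` are in a bounded box, so finitely many pairs (`t_k`, cell)
occur, and one of them occurs for infinitely many `k`. For this pair `z - t ∈ Q`: from
`p.1 ≤ z.1 - t.1 + 1/(k+1)` for infinitely many `k` we get `p.1 ≤ z.1 - t.1`, and
`z.1 - t.1 + 1/(k+1) ≤ p.2` gives `z.1 - t.1 < p.2`; the same for the second coordinate.
(H4) Put `S n = {x | ∃ y, (x,y) ∈ T ∧ ⌈y⌉ = m n}`. Apply (H3) at `z = (u, m n)`: `t = (x,y)`, cell
`(i,p)`, `m n - y ∈ [m i, m i + 1)`, which means `⌈y⌉ = m n - m i = m (n - i)`. So `q = (i, x)`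
works. Uniqueness: another `q' = (i', x')` comes from `(x',y') ∈ T` with `⌈y'⌉ = m (n - i')`, so
`z - (x',y')` lies in a half-open cell with index `i'`; (H1). -/
def T_PR : Prop :=
  ∀ (h m : ℕ) (A : ℕ → Finset (ℝ × ℝ)), 0 < m → Layers h A → ∀ T : Set (ℝ × ℝ),
    Tiling (body h m A) T → ∃ S : ℤ → Set ℝ, Cov h A S

/-- **T_RP** (rows to planar, about 130 lines).
Proof. `T = {(s,y) | ∃ (n : ℤ) (ρ : ℕ), ρ < m ∧ y = m n + ρ ∧ s ∈ S n}`. Covering: for `z =
(u,v)` let `⌊v⌋ = m n + ρ` (`Int.emod`), `q = (i,s)` from `Cov` at `(n,u)`, `t = (s, m (n - i) +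
ρ) ∈ T`; then `z - t = (u - s, v - ⌊v⌋ + m i)` is in the body. Packing: let `z` be in the
interiors of `C + t` and `C + t'`, `t, t' ∈ T`. For all large `k` the point `z + (1/(k+1),
1/(k+1))` is in both `C + t` and `C + t'`. One closed cell `(i,p)` of `t` contains it for
infinitely many `k`, hence `p.1 ≤ u - s < p.2` and `m i ≤ v - y < m i + 1`, so `⌊v⌋ = y + m i` as
`y` is an integer. In the same way `⌊v⌋ = y' + m i'`. With `y = m n₁ + ρ`, `y' = m n₁' + ρ'`: `ρ
= ρ'`, `n₁ + i = n₁' + i' =: n`. Both `(i,s)` and `(i',s')` are solutions in `Cov` at `(n,u)`, so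
they agree and `t = t'`. Periods: `(P, 0)` and `(θ, m K)`; linearly independent because `P, m K > 0`
(`LinearIndependent.pair_iff`). -/
def T_RP : Prop :=
  ∀ (h m : ℕ) (A : ℕ → Finset (ℝ × ℝ)), 0 < m → Layers h A → ∀ (S : ℤ → Set ℝ) (P θ : ℝ) (K : ℕ),
    Cov h A S → Per S P θ K → ∃ T, Tiling (body h m A) T ∧ Periodic2 T

/-- **T_JUMP** (about 130 lines).
Proof. A piece of the row `n` is `(i,s,p)`, `i < h`, `s ∈ T (n - i)`, `p ∈ A i`; it covers
`[s + p.1, s + p.2)`. By `Cov` and `sep` every point `w` is in exactly one piece (if `(i,s)` is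
the same then `p = p'` because two different intervals of `A i` do not overlap). Let `lam > 0` be
smaller than all lengths `p.2 - p.1` (finitely many).
(a) At most one piece starts at `u` (it contains `u`); at most one piece ends at `u` (two such
pieces contain the points slightly to the left of `u`). (b) If a piece ends at `u` then a piece
starts at `u`: `u` is in some piece `π'`; if `π'` starts to the left of `u` then points slightly
to the left of `u` are in both pieces, which are different; contradiction. (c) If a piece `π`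
starts at `u` then a piece ends at `u`: let `w = u - lam / 2`, `π'` the piece containing `w`. Its
end `e` is `> w`. If `e > u` then `u` is in both, so `π = π'`, but `π` starts at `u > w`:
contradiction. If `e < u`: by (b) a piece starts at `e`, its length is `> lam`, so it contains
`u` (`e > w`, `e + lam > u`), but it starts at `e ≠ u`, so it is not `π`: contradiction. So `e = u`.
The left sum counts the pieces starting at `u`, the right sum counts the pieces ending at `u`; both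
are `0` or `1` by (a) and equal by (b), (c). -/
def T_JUMP : Prop :=
  ∀ (h : ℕ) (A : ℕ → Finset (ℝ × ℝ)), Layers h A → ∀ T : ℤ → Set ℝ, Cov h A T →
    ∀ (n : ℤ) (u : ℝ), ∑ i ∈ range h, ∑ p ∈ A i, ii (T (n - i)) (u - p.1) =
      ∑ i ∈ range h, ∑ p ∈ A i, ii (T (n - i)) (u - p.2)

/-- **T_DIL** (dilation, about 110 lines).
Proof. Induction on `k` (strong, by a prime factor). `k = 1`: hypothesis. `k = k' p`, `p` prime,
`J.card < p`, true for `k'`. Work in the commutative ring `R = AddMonoidAlgebra (ZMod p) V` of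
characteristic `p`. `G_k = ∑_{j ∈ J} (single (k a_j) 1 - single (k b_j) 1)`. By `sum_pow_char`,
`sub_pow_char` (or `frobenius`), `G_k' ^ p = G_(k' p)`. `R` acts on functions `V → ZMod p` by
`(f t)(z) = f.sum (fun v c => c * t (z - v))`, a module structure
(`(f g) t = f (g t)`); by hypothesis `G_k' t = 0` for the reduction of `t`, so `G_(k' p) t = 0` mod
`p`. So `∑_j t (z - k a_j) - ∑_j t (z - k b_j)` is divisible by `p`; it is between `-J.card` and
`J.card` and `J.card < p`, so it is `0`. -/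
def T_DIL : Prop :=
  ∀ (β : Type) (J : Finset β) (a b : β → V) (t : V → ℤ), (∀ z, t z = 0 ∨ t z = 1) →
    (∀ z, ∑ j ∈ J, t (z - a j) = ∑ j ∈ J, t (z - b j)) →
    ∀ k : ℕ, 0 < k → (∀ p : ℕ, p.Prime → p ∣ k → J.card < p) →
      ∀ z, ∑ j ∈ J, t (z - k • a j) = ∑ j ∈ J, t (z - k • b j)

/-- **T_SPEC** (special annihilator, about 80 lines).
Proof. `G = ∑_{v ∈ D'} c_v X^v`, `D'` the support, `v₀ ∈ D'`. In `R = AddMonoidAlgebra ℂ V` let
`E(Y) = ∏_{v ∈ D', v ≠ v₀} (Y - X^(r v)) = ∑_k e_k Y^k ∈ R[Y]`. As `X^((1+rk) v) = X^v (X^(r v))^k`: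
`∑_k e_k dil (1 + r k) G = ∑_v c_v X^v E(X^(r v)) = c_{v₀} X^(v₀) ∏_{v ≠ v₀} (X^(r v₀) - X^(r v))`.
`act` is a module action (`act (f g) t = act f (act g t)`, additive), so this element kills `t`, and
so does its product with the unit `c_{v₀}⁻¹ X^(-v₀) ∏ X^(-r v₀)`, which is
`∏_{v ≠ v₀} (1 - X^(r (v - v₀)))`. `D` is the set of the vectors `r (v - v₀)`, `v ∈ D'`, `v ≠ v₀`
(the map `v ↦ r (v - v₀)` is injective, they are nonzero). -/
def T_SPEC : Prop :=
  ∀ G : AddMonoidAlgebra ℂ V, G ≠ 0 → ∀ r : ℕ, 0 < r → ∃ D : Finset V, (0 : V) ∉ D ∧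
    ∀ t : V → ℂ, (∀ k : ℕ, act (dil (1 + r * k) G) t = 0) →
      act (∏ d ∈ D, (1 - AddMonoidAlgebra.single d 1)) t = 0

/-- **T_NORM** (about 120 lines).
Proof. `d = (x, n)`. If `n = 0` then `x ≠ 0` and `H = 1 - single x 1`, `α = 0`, `β = 1`. If `n <
0` use the case of `-d`: `1 - X^(-d) = - X^(-d) (1 - X^d)`. Let `n = b > 0`, `γ = x / b`, `y =
X^(γ, 1)`, so `y ^ b = X^d`. Let `P(Y) = ∑_{i < h} (X^(-γ i) a_i) Y^i`, a polynomial over
`AddMonoidAlgebra ℂ ℝ`. `P.eval₂ emb y = GG h a` because `X^(-γ i, 0) X^(γ i, i) = X^(0, i)`. For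
a complex `ζ` let `u_ζ = P.eval (single 0 ζ)`, equal to the sum in the hypothesis for `γ, ζ`. The
element `GG h a - emb u_ζ` is divisible by `y - emb (single 0 ζ)` (`Polynomial.sub_dvd_eval_sub`,
after mapping `P` by `emb`). Let `H = ∏ u_ζ` over the `b`-th roots of unity (`Polynomial.nthRoots
b 1` or `nthRootsFinset`), nonzero because the factors are and `AddMonoidAlgebra ℂ ℝ` has no zero
divisors. `emb H = ∏ (GG h a - (y - ζ) q_ζ)` is in the ideal generated by `GG h a` and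
`∏ (y - ζ) = y ^ b - 1 = - (1 - X^d)` (`X_pow_sub_one_eq_prod`). -/
def T_NORM : Prop :=
  ∀ (h : ℕ) (a : ℕ → AddMonoidAlgebra ℂ ℝ),
    (∀ (γ : ℝ) (ζ : ℂ), (∃ k : ℕ, 0 < k ∧ ζ ^ k = 1) →
      ∑ i ∈ range h, AddMonoidAlgebra.single (-(i * γ)) (ζ ^ i) * a i ≠ 0) →
    ∀ d : V, d ≠ 0 → ∃ H : AddMonoidAlgebra ℂ ℝ, H ≠ 0 ∧
      ∃ α β : AddMonoidAlgebra ℂ V, emb H = α * GG h a + β * (1 - AddMonoidAlgebra.single d 1)

/-- **T_ELIM** (about 60 lines; uses `T_SPEC`, `T_NORM`).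
Proof. `GG h a ≠ 0` (hypothesis with `γ = 0`, `ζ = 1`: the ring homomorphism induced by the
projection `ℝ × ℤ → ℝ` maps `GG h a` to that sum). `D` from T_SPEC. For `d ∈ D` take `H_d` from
T_NORM, `H = ∏ H_d`. `emb H = ∏ (α_d G + β_d (1 - X^d)) = α G + β ∏ (1 - X^d)` for some `α, β`
(induction on `D`), and both `G` (`k = 0`, `dil 1 G = G`) and `∏ (1 - X^d)` kill `t`. -/
def T_ELIM : Prop :=
  ∀ (h : ℕ) (a : ℕ → AddMonoidAlgebra ℂ ℝ),
    (∀ (γ : ℝ) (ζ : ℂ), (∃ k : ℕ, 0 < k ∧ ζ ^ k = 1) →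
      ∑ i ∈ range h, AddMonoidAlgebra.single (-(i * γ)) (ζ ^ i) * a i ≠ 0) →
    ∀ r : ℕ, 0 < r → ∃ H : AddMonoidAlgebra ℂ ℝ, H ≠ 0 ∧
      ∀ t : V → ℂ, (∀ k : ℕ, act (dil (1 + r * k) (GG h a)) t = 0) → act (emb H) t = 0

/-- **T_LAY** (about 40 lines). `cum x` is additive and `cum x (single e c) = if e ≤ x then c
else 0`, so `cum x (lay I) = ∑_{p ∈ I} ([p.1 ≤ x] - [p.2 ≤ x]) = ∑_{p ∈ I} [p.1 ≤ x < p.2]`, and
at most one `p` contributes. -/
def T_LAY : Prop :=
  ∀ I : Finset (ℝ × ℝ), (∀ p ∈ I, p.1 < p.2) →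
    (∀ p ∈ I, ∀ q ∈ I, p ≠ q → p.2 ≤ q.1 ∨ q.2 ≤ p.1) →
    ∀ x, cum x (lay I) = ind (hop I) x

/-- **T_SG** (about 40 lines; uses `T_LAY`). `cum x` of the sum is
`∑_i ζ^i cum (x + i γ) (lay (A i)) = ∑_i ζ^i ind (hop (A i)) (x + i γ)`
(`cum x (single e c * f) = c * cum (x - e) f`); apply `Star` with `-γ`. -/
def T_SG : Prop :=
  ∀ (h : ℕ) (A : ℕ → Finset (ℝ × ℝ)), Layers h A → Star h A → ∀ (γ : ℝ) (ζ : ℂ),
    (∃ k : ℕ, 0 < k ∧ ζ ^ k = 1) →
    ∑ i ∈ range h, AddMonoidAlgebra.single (-(i * γ)) (ζ ^ i) * lay (A i) ≠ 0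

/-- **T_HAN** (about 110 lines; uses `T_JUMP`, `T_DIL`, `T_ELIM`, `T_SG`).
Proof. `H` from T_ELIM with `a i = lay (A i)` and `r = N !`, `N` the number of pairs `(i,p)`, `i
< h`, `p ∈ A i`. Let `T` satisfy `Cov`, `t (x,n) = ii (T n) x`. T_JUMP is the hypothesis of T_DIL
for `a (i,p) = (p.1, i)`, `b (i,p) = (p.2, i)`, `J` the set of the pairs. All prime factors of `1
+ r k` are `> N`. `dil k (GG h a) = ∑ (single (k p.1, k i) 1 - single (k p.2, k i) 1)`, so T_DIL
says `act (dil (1 + r k) (GG h a)) t = 0` (complex valued `t`). `act (emb H) t = 0` at `(x,n)` is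
`Ann H (ind (T n))` at `x`. -/
def T_HAN : Prop :=
  ∀ (h : ℕ) (A : ℕ → Finset (ℝ × ℝ)), Layers h A → Star h A →
    ∃ H : AddMonoidAlgebra ℂ ℝ, H ≠ 0 ∧
      ∀ T : ℤ → Set ℝ, Cov h A T → ∀ n, Ann H (ind (T n))

/-- **T_FLC** (about 150 lines).
Proof. Pieces as in T_JUMP; in the same way: if a piece of a row ends at `e` then a piece of this
row starts at `e` (T_JUMP (b)), and a point which is the start of a piece is in the interior of no
piece. `lam > 0` smaller than all lengths, `Λ` the finite set of all lengths `p.2 - p.1`.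
(CHAIN) if pieces of the same row start at `a ≤ b`, then `b - a` is a sum of at most `(b - a) / lam`
elements of `Λ` (start at `a`, go to the end of the piece, which is the start of the next piece, and
so on; we never jump over `b`; induction on `⌊(b - a) / lam⌋`).
Let `x ∈ T j`, `y ∈ T j'`, `j ≤ j' < j + h` (the other case by symmetry, take `D ∪ -D`). In the
row `j'` the tile `x` has a piece `(j' - j, x, p)` and the tile `y` has a piece `(0, y, p')` (the
layers are nonempty). They start at `x + p.1` and `y + p'.1`, at distance `≤ L + M`, where `M` is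
a bound of `|p.1| + |p'.1|`. So `±((x + p.1) - (y + p'.1))` is a sum of at most `(L + M) / lam`
elements of `Λ`: a finite set of values; and there are finitely many `p, p'`. The finite set of
the sums of at most `k` elements of `Λ`: `D_0 = {0}`, `D_(k+1) = D_k ∪ (D_k + Λ)`. -/
def T_FLC : Prop :=
  ∀ (h : ℕ) (A : ℕ → Finset (ℝ × ℝ)), Layers h A → ∀ L : ℝ, ∃ D : Finset ℝ,
    ∀ T : ℤ → Set ℝ, Cov h A T → ∀ j j' : ℤ, |j - j'| < h →
      ∀ x ∈ T j, ∀ y ∈ T j', |x - y| ≤ L → x - y ∈ D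

/-- **T_DET** (determinism, about 70 lines).
Proof. `e₁ ≤ e₂` the smallest and the largest exponent of `H`, `W = e₂ - e₁ + 1`. Suppose `s`
vanishes on `[c, c + W]` and `s x ≠ 0` for some `x > c + W`. As the support is locally finite
there is a smallest such `x`, so `s = 0` on `[c, x)`. Evaluate `Ann` at `x + e₁`: the terms are
`H e * s (x + e₁ - e)`, `x + e₁ - e ≤ x` and `≥ x - (e₂ - e₁) ≥ c`, so only `e = e₁` gives a
nonzero term, contradiction. To the left the same with `e₂`. -/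
def T_DET : Prop :=
  ∀ H : AddMonoidAlgebra ℂ ℝ, H ≠ 0 → ∃ W : ℝ, 0 < W ∧
    ∀ s : ℝ → ℂ, (∀ a b : ℝ, {x | s x ≠ 0 ∧ a ≤ x ∧ x ≤ b}.Finite) → Ann H s →
      ∀ c : ℝ, (∀ x, c ≤ x → x ≤ c + W → s x = 0) → ∀ x, s x = 0

/-- **T_MEET** (about 30 lines; uses `T_DET`). `FinD X X` gives local finiteness: if `x₀ ∈ X ∩
[a,b]` then `X ∩ [a,b] ⊆ x₀ + finite set`. Apply T_DET to `s = ind X`. -/
def T_MEET : Prop :=
  ∀ H : AddMonoidAlgebra ℂ ℝ, H ≠ 0 → ∃ W : ℝ, 0 < W ∧
    ∀ X : Set ℝ, FinD X X → Ann H (ind X) → X.Nonempty → Meets W X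

/-- **T_PER** (common period, about 120 lines; uses `T_DET`, `T_MEET`).
Proof. If all `X i` are empty take `P = 1`. Let `W` be larger than the constants of T_DET and
T_MEET, `Y = ⋃ X i`; some `X i` is nonempty, so for each `k : ℕ` there is `y_k ∈ Y` with
`2 k W ≤ y_k ≤ (2 k + 1) W`. `D` = the finite set of the differences `d = x - y`, `x ∈ X i`,
`y ∈ X j`, `|d| ≤ W` (all `i, j`). Pattern of `k`: the set of all `(d, i)`, `d ∈ D`, `y_k + d ∈ X
i`, a subset of the finite set `D × ι`. By the pigeonhole principle there are `k < k'` with the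
same pattern; `P = y_k' - y_k > 0`. For `x ∈ [y_k, y_k + W]`: `x ∈ X i` iff `(x - y_k, i)` is in
the pattern iff `x + P ∈ X i`. So `s x = ind (X i) (x + P) - ind (X i) x` vanishes on an interval
of length `W`; it is annihilated by `H` and has locally finite support, so `s = 0` (T_DET). -/
def T_PER : Prop :=
  ∀ H : AddMonoidAlgebra ℂ ℝ, H ≠ 0 → ∀ (ι : Type) [Fintype ι] (X : ι → Set ℝ),
    (∀ i, Ann H (ind (X i))) → (∀ i j, FinD (X i) (X j)) →
    ∃ P : ℝ, 0 < P ∧ ∀ i x, x + P ∈ X i ↔ x ∈ X i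

/-- **T_WIN** (windows, about 130 lines; uses `T_FLC`, `T_DET`).
Proof. `W` from T_DET, `D` from T_FLC with `L = W`. For `n ≥ n₀` choose `j_n ∈ [n, n + h - 1)` and
`v_n ∈ T j_n`. Pattern of `n`: the set of all `(d, i)`, `d ∈ D`, `i < h - 1`, `v_n + d ∈ T (n +
i)`: a subset of the finite set `D × range h`. By the pigeonhole principle for `n = n₀, n₀ + 1,
...` there are `n < n'` with the same pattern; `K = n' - n`, `θ = v_n' - v_n`. For `i < h - 1`
the function `s x = ind (T (n' + i)) (x + θ) - ind (T (n + i)) x` is annihilated by `H`, has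
locally finite support (T_FLC with `j = j'`), and vanishes on `[v_n, v_n + W]`: if `x` is there
and `x ∈ T (n + i)` then `x - v_n ∈ D` by T_FLC (`|n + i - j_n| < h`), so `(x - v_n, i)` is in
the pattern of `n`, hence of `n'`, so `v_n' + (x - v_n) = x + θ ∈ T (n' + i)`; the converse in
the same way. So `s = 0`. -/
def T_WIN : Prop :=
  ∀ (h : ℕ) (A : ℕ → Finset (ℝ × ℝ)), 2 ≤ h → Layers h A → ∀ H : AddMonoidAlgebra ℂ ℝ, H ≠ 0 →
    ∀ T : ℤ → Set ℝ, Cov h A T → (∀ n, Ann H (ind (T n))) → ∀ n₀ : ℤ,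
      (∀ n, n₀ ≤ n → ∃ j, n ≤ j ∧ j < n + h - 1 ∧ (T j).Nonempty) →
      ∃ (n : ℤ) (K : ℕ) (θ : ℝ), n₀ ≤ n ∧ 0 < K ∧
        ∀ i : ℕ, i + 1 < h → ∀ x, x + θ ∈ T (n + K + i) ↔ x ∈ T (n + i)

/-- **T_COM** (common period of a block, about 90 lines; uses `T_FLC`, `T_MEET`, `T_PER`).
Proof. Claim: `FinD (T j) (T j')` for all `j, j' ∈ [a, b]`. If one of the sets is empty this is
trivial. By symmetry (`FinD X Y → FinD Y X`) let `j ≤ j'`; induction on `j' - j`. If `j' - j < h`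
use T_FLC. Otherwise the hypothesis for `n = j'` (with the nonempty row `j ≤ j' - h`) gives `j₁`
with `j' - h < j₁ < j'`, `T j₁` nonempty; `j < j₁`. `FinD (T j) (T j₁)` by induction, `FinD (T
j₁) (T j')` by T_FLC, `T j₁` meets every interval of length `W` (T_MEET). If `x ∈ T j`, `y ∈ T
j'`, `|x - y| ≤ L` take `z ∈ T j₁`, `x ≤ z ≤ x + W`: `x - y = (x - z) + (z - y)`, `|x - z| ≤ W`,
`|z - y| ≤ L + W`; both summands are in finite sets. Now T_PER for the finite family of the rows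
`j ∈ [a, b]` (for example `ι = {j // j ∈ Finset.Icc a b}`). -/
def T_COM : Prop :=
  ∀ (h : ℕ) (A : ℕ → Finset (ℝ × ℝ)), Layers h A → ∀ H : AddMonoidAlgebra ℂ ℝ, H ≠ 0 →
    ∀ T : ℤ → Set ℝ, Cov h A T → (∀ n, Ann H (ind (T n))) → ∀ a b : ℤ,
      (∀ n, a < n → n ≤ b → (∃ j, a ≤ j ∧ j ≤ n - h ∧ (T j).Nonempty) →
        ∃ j, n - h < j ∧ j < n ∧ (T j).Nonempty) →
      ∃ P : ℝ, 0 < P ∧ ∀ j, a ≤ j → j ≤ b → ∀ x, x + P ∈ T j ↔ x ∈ T j

/-- **T_GLUE** (about 100 lines).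
Proof. `S m = {x | x - q θ ∈ T (n + r)}`, where `m - n = q K + r`, `0 ≤ r < K` (`Int.ediv`,
`Int.emod`). Claim: for all `q` and all `0 ≤ r' ≤ K + h - 2`: `x ∈ S (n + q K + r')` iff
`x - q θ ∈ T (n + r')`. Induction on `r'`: for `r' < K` this is the definition; for `r' ≥ K`,
`i = r' - K` satisfies `i + 1 < h`, `n + q K + r' = n + (q + 1) K + i`, so by induction
`x ∈ S (...)` iff `x - (q + 1) θ ∈ T (n + i)` iff (hypothesis) `x - q θ ∈ T (n + K + i)`.
`Cov` for `S` at `(m, u)`: write `m - (h - 1) = n + q K + r`, `0 ≤ r < K`. For `i < h`,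
`m - i = n + q K + (r + h - 1 - i)` with `0 ≤ r + h - 1 - i ≤ K + h - 2`. So `s ∈ S (m - i)` iff
`s - q θ ∈ T (n + r + h - 1 - i)`, and `Cov` for `S` at `(m, u)` is `Cov` for `T` at
`(n + r + h - 1, u - q θ)` via `s ↦ s - q θ`. Periods: clear from the definition. -/
def T_GLUE : Prop :=
  ∀ (h : ℕ) (A : ℕ → Finset (ℝ × ℝ)), 0 < h → ∀ T : ℤ → Set ℝ, Cov h A T →
    ∀ (n : ℤ) (K : ℕ) (θ P : ℝ), 0 < K → 0 < P →
      (∀ i : ℕ, i + 1 < h → ∀ x, x + θ ∈ T (n + K + i) ↔ x ∈ T (n + i)) →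
      (∀ r : ℕ, r < K → ∀ x, x + P ∈ T (n + r) ↔ x ∈ T (n + r)) →
      ∃ S : ℤ → Set ℝ, Cov h A S ∧ Per S P θ K

/-- **T_STAR** (about 90 lines; uses `T_HAN`, `T_WIN`, `T_COM`, `T_GLUE`).
Proof. `H` from T_HAN. `F n` (fault): `T j = ∅` for all `j` with `n - h < j < n`.
Case 1: there are faults `n₀ < n₁`; take `n₁` minimal for the given `n₀` (no fault strictly between;
`Int.exists_least_of_bdd` or `Nat.find`). Put `n = n₀ - h + 1`, `K = n₁ - n₀`, `θ = 0`: the rows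
`n + i` and `n + K + i`, `i + 1 < h`, are all empty. T_COM with `a = n`, `b = n₁ - h`: if `a < k
≤ b` and some row `j`, `a ≤ j ≤ k - h`, is nonempty then `j ≥ n₀`, so `n₀ < k < n₁`, `k` is not a
fault. The rows `n + r`, `r < K`, are the rows of `[a, b]`. T_GLUE.
Case 2: there is `n₁` such that no `k ≥ n₁` is a fault. Then T_WIN applies with `n₀ = n₁` (the
window `[n, n + h - 1)` is the set of `j` with `k - h < j < k` for `k = n + h - 1`), it gives `n,
K, θ`. T_COM with `a = n`, `b = n + K`. T_GLUE. -/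
def T_STAR : Prop :=
  ∀ (h : ℕ) (A : ℕ → Finset (ℝ × ℝ)), 2 ≤ h → Layers h A → Star h A → ∀ T : ℤ → Set ℝ,
    Cov h A T → ∃ (S : ℤ → Set ℝ) (P θ : ℝ) (K : ℕ), Cov h A S ∧ Per S P θ K

/-- **T_TRA** (about 130 lines; uses `T_JUMP`, `T_FLC`, `T_PER`, `T_LAY`).
Proof. `Y = {x | ∃ i < h, x - γ i ∈ T (-i)}`. `Cov h A T` at `(0, u)`: there is exactly one
`(i,s)` with `s ∈ T (-i)`, `u - s ∈ hop (A i)`, i.e. `(u - γ i) - s ∈ hop (A 0)`; so there is
exactly one `s' ∈ Y` (`s' = s + γ i`) with `u - s' ∈ hop (A 0)`. So `Cov 1 A (fun _ => Y)` (and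
`Layers 1 A`). T_JUMP for it says `Ann (lay (A 0)) (ind Y)`; `lay (A 0) ≠ 0` by T_LAY (`cum x
(lay (A 0)) = 1` for `x ∈ hop (A 0)`); `FinD Y Y` by T_FLC. T_PER (one set) gives the period `P`.
`S n = Y` if `h ∣ n` and `∅` otherwise: for every `n` there is exactly one `i < h` with `h ∣ n -
i`, and `s ∈ Y`, `u - s ∈ hop (A i)` means `(u - γ i) - s ∈ hop (A 0)`: exactly one `s`. `Per S P
0 h`. -/
def T_TRA : Prop :=
  ∀ (h : ℕ) (A : ℕ → Finset (ℝ × ℝ)), Layers h A → AllTr h A → ∀ T : ℤ → Set ℝ,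
    Cov h A T → ∃ (S : ℤ → Set ℝ) (P θ : ℝ) (K : ℕ), Cov h A S ∧ Per S P θ K

/-- **T_TWO** (about 50 lines). `h = 1`: `AllTr` with `γ = 0`. `h = 2`, not `Star`: there are `γ,
ζ` with `ind (hop (A 0)) x + ζ * ind (hop (A 1)) (x - γ) = 0` for all `x`. At a point `x ∈ hop (A
0)` (nonempty) we get `ζ = -1`. So `x ∈ hop (A 0)` iff `x - γ ∈ hop (A 1)` for all `x`: `AllTr`
with `γ 1 = -γ`. -/
def T_TWO : Prop :=
  ∀ (h : ℕ) (A : ℕ → Finset (ℝ × ℝ)), h ≤ 2 → Layers h A → AllTr h A ∨ Star h A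

end Pool.Agent.MLB
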